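import Pool.Agent.Lib.MP_e6f638_al.V.Stmts77
import Pool.Agent.Lib.MP_e6f638_al.I1

/-!
# Module V5: the points and lines of an even Artin group
-/

set_option autoImplicit false

namespace Pool.Agent.Lib.MP_e6f638_al

open Multiplicative

section

variable {S : Type} (l : S → S → ℕ)

/-- Elements of the standard subgroup of generators commuting with `y` commute with `gen y`. -/
theorem par_comm_gen {Z : Set S} {y : S} (hZ : ∀ c ∈ Z, l c y = 1) {h : EA l}
    (hh : h ∈ par l Z) : Commute h (gen l y) := by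
  induction hh using Subgroup.closure_induction with
  | mem x hx =>
    obtain ⟨s, hs, rfl⟩ := hx
    have h1 := gen_rel l s y
    rw [hZ s hs, pow_one, pow_one] at h1
    exact h1
  | one => exact Commute.one_left _
  | mul x z _ _ hx hz => exact hx.mul_left hz
  | inv x _ hx => exact hx.inv_left

/-- The weight which counts the generator `y`. -/
noncomputable def wy (y : S) : EA l →* Multiplicative ℤ := by
  classical
  exact wt l (fun s => if s = y then 1 else 0)

theorem wy_self (y : S) : wy l y (gen l y) = ofAdd 1 := by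
  classical
  simp [wy]

theorem wy_ne {y s : S} (h : s ≠ y) : wy l y (gen l s) = 1 := by
  classical
  simp [wy, h]

theorem wy_par {y : S} {X : Set S} (hy : y ∉ X) {h : EA l} (hh : h ∈ par l X) :
    wy l y h = 1 := by
  induction hh using Subgroup.closure_induction with
  | mem x hx =>
    obtain ⟨s, hs, rfl⟩ := hx
    exact wy_ne l (fun e => hy (e ▸ hs))
  | one => exact map_one _
  | mul x z _ _ hx hz => rw [map_mul, hx, hz, one_mul]
  | inv x _ hx => rw [map_inv, hx, inv_one]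

theorem ofAdd_one_zpow (n : ℤ) : (ofAdd (1 : ℤ)) ^ n = ofAdd n := by
  rw [← ofAdd_zsmul]; simp

end

section

variable {S : Type} {l : S → S → ℕ}

/-- The shift of a line. -/
theorem shift_line {u : S} (g g' : EA (del l u)) (y : {y : {x : S // x ≠ u} // l u y = 2})
    (a b : ℤ) (h : EA (del l u)) (hh : h ∈ par (del l u) {c | l u c = 1})
    (hc : Commute h (gen (del l u) y))
    (e : g' * gen (del l u) y ^ a = g * gen (del l u) y ^ b * h) :
    ∃ c, ∀ i, ppt l u (g', y) i = ppt l u (g, y) (i + c) := by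
  refine ⟨b - a, fun i => ?_⟩
  have e1 : g' = g * gen (del l u) y ^ (b - a) * h := by
    have h2 : h * gen (del l u) y ^ (-a) = gen (del l u) y ^ (-a) * h := (hc.zpow_right (-a)).eq
    calc g' = g' * gen (del l u) y ^ a * gen (del l u) y ^ (-a) := by
          rw [mul_assoc, ← zpow_add]; simp
      _ = g * gen (del l u) y ^ b * (h * gen (del l u) y ^ (-a)) := by rw [e, mul_assoc]
      _ = g * gen (del l u) y ^ (b - a) * h := by
          rw [h2, ← mul_assoc, mul_assoc g, ← zpow_add, sub_eq_add_neg]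
  have h3 : h * gen (del l u) y ^ i = gen (del l u) y ^ i * h := (hc.zpow_right i).eq
  have e2 : g' * gen (del l u) y ^ i = g * gen (del l u) y ^ (i + (b - a)) * h := by
    rw [e1, mul_assoc, h3, ← mul_assoc, mul_assoc g, ← zpow_add, add_comm]
  show (QuotientGroup.mk (g' * gen (del l u) y ^ i) : PP l u) =
    QuotientGroup.mk (g * gen (del l u) y ^ (i + (b - a)))
  rw [e2]
  refine (QuotientGroup.eq.2 ?_).symm
  rw [inv_mul_cancel_left]
  exact hh

/-- Equality of points. -/
theorem ppt_eq {u : S} {g g' : EA (del l u)} {y y' : {y : {x : S // x ≠ u} // l u y = 2}}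
    {a b : ℤ} (h : ppt l u (g, y) a = ppt l u (g', y') b) :
    ∃ k ∈ par (del l u) {c | l u c = 1},
      g' * gen (del l u) y' ^ b = g * gen (del l u) y ^ a * k := by
  have h1 : (QuotientGroup.mk (g * gen (del l u) y ^ a) : PP l u) =
    QuotientGroup.mk (g' * gen (del l u) y' ^ b) := h
  rw [QuotientGroup.eq] at h1
  exact ⟨_, h1, by rw [mul_inv_cancel_left]⟩

theorem stV5 : StV5 := by
  intro S l hL u hCC
  obtain ⟨hsymm, h12⟩ := hL
  set G := EA (del l u) with hG
  set X : Set {x : S // x ≠ u} := {c | l u c = 1} with hX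
  have hyX : ∀ y : {y : {x : S // x ≠ u} // l u y = 2}, (y : {x : S // x ≠ u}) ∉ X := by
    intro y hy
    have h1 : l u (y : {x : S // x ≠ u}) = 1 := hy
    rw [y.2] at h1
    exact absurd h1 (by norm_num)
  -- commuting
  have hZ : ∀ (y : {y : {x : S // x ≠ u} // l u y = 2}) (h : EA (del l u)),
      h ∈ par (del l u) {c | c ∈ X ∧ del l u y c = 1} → Commute h (gen (del l u) y) := by
    intro y h hh
    refine par_comm_gen (del l u) (Z := {c | c ∈ X ∧ del l u y c = 1}) ?_ hh
    intro c hc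
    have h1 : del l u c y = del l u y c := hsymm _ _
    rw [h1]
    exact hc.2
  have hwy : ∀ (y : {y : {x : S // x ≠ u} // l u y = 2}) (n : ℤ),
      wy (del l u) (y : {x : S // x ≠ u}) (gen (del l u) y ^ n) = ofAdd n := by
    intro y n
    rw [map_zpow, wy_self, ofAdd_one_zpow]
  have hwn : ∀ (y y' : {y : {x : S // x ≠ u} // l u y = 2}) (n : ℤ), y' ≠ y →
      wy (del l u) (y : {x : S // x ≠ u}) (gen (del l u) y' ^ n) = 1 := by
    intro y y' n hne
    rw [map_zpow, wy_ne (del l u) (fun e => hne (Subtype.ext e)), one_zpow]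
  have hwX : ∀ (y : {y : {x : S // x ≠ u} // l u y = 2}) (h : EA (del l u)),
      h ∈ par (del l u) X → wy (del l u) (y : {x : S // x ≠ u}) h = 1 := by
    intro y h hh
    exact wy_par (del l u) (hyX y) hh
  have hρy : ∀ (y : {y : {x : S // x ≠ u} // l u y = 2}) (n : ℤ),
      rho (del l u) X (gen (del l u) y ^ n) = 1 := by
    intro y n
    rw [map_zpow, rho_not_mem (del l u) (hyX y), one_zpow]
  refine ⟨?_, ?_, ?_⟩
  · rintro ⟨g, y⟩ m n h
    obtain ⟨k, hk, e⟩ := ppt_eq h
    have e1 : gen (del l u) y ^ n = gen (del l u) y ^ m * k := by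
      rw [mul_assoc] at e
      exact mul_left_cancel e
    have e2 := congrArg (wy (del l u) (y : {x : S // x ≠ u})) e1
    rw [map_mul, hwy, hwy, hwX y k hk, mul_one] at e2
    exact (ofAdd.injective e2).symm
  · rintro ⟨g, y⟩ ⟨g', y'⟩ m n m' n' hmn h1 h2
    obtain ⟨h, hh, e1⟩ := ppt_eq h1
    obtain ⟨k, hk, e2⟩ := ppt_eq h2
    -- `y' ^ (n' - m') = h⁻¹ y ^ (n - m) k`
    have e3 : gen (del l u) y' ^ (n' - m') = h⁻¹ * gen (del l u) y ^ (n - m) * k := by
      calc gen (del l u) y' ^ (n' - m') = (g' * gen (del l u) y' ^ m')⁻¹ *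
            (g' * gen (del l u) y' ^ n') := by
            rw [zpow_sub, (Commute.zpow_zpow_self _ _ _).inv_right.eq]; group
        _ = h⁻¹ * gen (del l u) y ^ (n - m) * k := by
            rw [e1, e2, zpow_sub, (Commute.zpow_zpow_self _ _ _).inv_right.eq]; group
    have hyy : y' = y := by
      by_contra hne
      have e4 := congrArg (wy (del l u) (y : {x : S // x ≠ u})) e3
      rw [hwn y y' _ hne, map_mul, map_mul, map_inv, hwX y h hh, hwX y k hk, hwy, inv_one,
        one_mul, mul_one] at e4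
      have e5 : (n - m : ℤ) = 0 := ofAdd.injective (e4.symm.trans ofAdd_zero.symm)
      exact hmn (by linarith)
    subst hyy
    have e4 := congrArg (wy (del l u) (y' : {x : S // x ≠ u})) e3
    rw [map_mul, map_mul, map_inv, hwX y' h hh, hwX y' k hk, hwy, hwy, inv_one, one_mul,
      mul_one] at e4
    have e5 : n' - m' = n - m := ofAdd.injective e4
    have e6 := congrArg (rho (del l u) X) e3
    rw [map_mul, map_mul, map_inv, rho_par _ hh, rho_par _ hk, hρy, hρy, mul_one] at e6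
    have e7 : k = h := by rw [eq_comm, inv_mul_eq_one] at e6; exact e6.symm
    have hne : n - m ≠ 0 := fun e => hmn (by linarith)
    have e8 : gen (del l u) y' ^ (n - m) = h⁻¹ * gen (del l u) y' ^ (n - m) * h := by
      rw [e5, e7] at e3
      exact e3
    have h3 := (hCC y' y'.2).two h⁻¹ (inv_mem hh) (n - m) hne (by
      rw [inv_inv]
      exact e8.symm)
    have hc : Commute h (gen (del l u) y') := by
      have := hZ y' _ h3
      rw [Commute.inv_left_iff] at this
      exact this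
    exact shift_line g g' y' m' m h hh hc e1
  · rintro ⟨g₁, y₁⟩ ⟨g₂, y₂⟩ ⟨g₃, y₃⟩ a₁ b₁ a₂ b₂ a₃ b₃ n1 n2 n3 p1 p2 p3
    obtain ⟨h₁, hh₁, e₁⟩ := ppt_eq p1
    obtain ⟨h₂, hh₂, e₂⟩ := ppt_eq p2
    obtain ⟨h₃, hh₃, e₃⟩ := ppt_eq p3
    have key : gen (del l u) y₁ ^ (b₁ - a₁) * h₁ * gen (del l u) y₂ ^ (b₂ - a₂) * h₂ *
        gen (del l u) y₃ ^ (b₃ - a₃) * h₃ = 1 := by
      have q1 : g₁ * gen (del l u) y₁ ^ b₁ =
          g₁ * gen (del l u) y₁ ^ a₁ * gen (del l u) y₁ ^ (b₁ - a₁) := by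
        rw [mul_assoc, ← zpow_add]; congr 2; ring
      have q2 : g₂ * gen (del l u) y₂ ^ b₂ =
          g₂ * gen (del l u) y₂ ^ a₂ * gen (del l u) y₂ ^ (b₂ - a₂) := by
        rw [mul_assoc, ← zpow_add]; congr 2; ring
      have q3 : g₃ * gen (del l u) y₃ ^ b₃ =
          g₃ * gen (del l u) y₃ ^ a₃ * gen (del l u) y₃ ^ (b₃ - a₃) := by
        rw [mul_assoc, ← zpow_add]; congr 2; ring
      rw [q3, e₂, q2, e₁, q1] at e₃
      have q4 : g₁ * gen (del l u) y₁ ^ a₁ * (gen (del l u) y₁ ^ (b₁ - a₁) * h₁ *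
          gen (del l u) y₂ ^ (b₂ - a₂) * h₂ * gen (del l u) y₃ ^ (b₃ - a₃) * h₃) =
          g₁ * gen (del l u) y₁ ^ a₁ := by
        conv_rhs => rw [e₃]
        simp only [mul_assoc]
      exact mul_eq_left.1 q4
    have f1 : b₁ - a₁ ≠ 0 := fun e => n1 (by linarith)
    have f2 : b₂ - a₂ ≠ 0 := fun e => n2 (by linarith)
    have f3 : b₃ - a₃ ≠ 0 := fun e => n3 (by linarith)
    have W : ∀ y : {y : {x : S // x ≠ u} // l u y = 2},
        wy (del l u) (y : {x : S // x ≠ u}) (gen (del l u) y₁ ^ (b₁ - a₁)) *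
        wy (del l u) (y : {x : S // x ≠ u}) (gen (del l u) y₂ ^ (b₂ - a₂)) *
        wy (del l u) (y : {x : S // x ≠ u}) (gen (del l u) y₃ ^ (b₃ - a₃)) = 1 := by
      intro y
      have q := congrArg (wy (del l u) (y : {x : S // x ≠ u})) key
      rw [map_mul, map_mul, map_mul, map_mul, map_mul, hwX y h₁ hh₁, hwX y h₂ hh₂,
        hwX y h₃ hh₃, mul_one, mul_one, mul_one, map_one] at q
      exact q
    have F : ∀ z : ℤ, z ≠ 0 → ofAdd z ≠ (1 : Multiplicative ℤ) := fun z hz e =>
      hz (ofAdd.injective (e.trans ofAdd_zero.symm))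
    have hy12 : y₂ = y₁ := by
      by_contra hne
      by_cases h31 : y₃ = y₁
      · have q := W y₂
        rw [hwn y₂ y₁ _ (Ne.symm hne), hwy, h31, hwn y₂ y₁ _ (Ne.symm hne), one_mul, mul_one] at q
        exact F _ f2 q
      · have q := W y₁
        rw [hwy, hwn y₁ y₂ _ hne, hwn y₁ y₃ _ h31, mul_one, mul_one] at q
        exact F _ f1 q
    have hy13 : y₃ = y₁ := by
      by_contra hne
      have q := W y₃
      rw [hy12, hwn y₃ y₁ _ (Ne.symm hne), hwn y₃ y₁ _ (Ne.symm hne), hwy, one_mul, one_mul] at q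
      exact F _ f3 q
    subst hy12
    subst hy13
    have r := congrArg (rho (del l u) X) key
    rw [map_mul, map_mul, map_mul, map_mul, map_mul, hρy, hρy, hρy, rho_par _ hh₁, rho_par _ hh₂,
      rho_par _ hh₃, one_mul, mul_one, mul_one, map_one] at r
    have key2 : gen (del l u) y₃ ^ (b₁ - a₁) * (h₁ * gen (del l u) y₃ ^ (b₂ - a₂) * h₁⁻¹) *
        (h₁ * h₂ * gen (del l u) y₃ ^ (b₃ - a₃) * (h₁ * h₂)⁻¹) = 1 := by
      have r2 : (h₁ * h₂)⁻¹ = h₃ := by
        rw [inv_eq_iff_mul_eq_one]; exact r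
      rw [r2, ← key]
      group
    rcases (hCC y₃ y₃.2).three h₁ hh₁ (h₁ * h₂) (mul_mem hh₁ hh₂) _ _ _ f1 f2 f3 key2 with
      c | c | c
    · left
      exact shift_line g₁ g₂ y₃ a₂ b₁ h₁ hh₁ (hZ y₃ _ c) e₁
    · right; right
      have r3 : h₃ = (h₁ * h₂)⁻¹ := (eq_inv_of_mul_eq_one_right r)
      have hc3 : Commute h₃ (gen (del l u) y₃) := by
        rw [r3]; exact (hZ y₃ _ c).inv_left
      exact shift_line g₃ g₁ y₃ a₁ b₃ h₃ hh₃ hc3 e₃
    · right; left
      rw [inv_mul_cancel_left] at c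
      exact shift_line g₂ g₃ y₃ a₃ b₂ h₂ hh₂ (hZ y₃ _ c) e₂

end

end Pool.Agent.Lib.MP_e6f638_al
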