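import Pool.Agent.Lib.MP_e6f638_al.V.V6t_38
import Pool.Agent.Lib.MP_e6f638_al.V.V5_53

/-!
# Module V6: the induction
-/

set_option autoImplicit false

namespace Pool.Agent.Lib.MP_e6f638_al

open Multiplicative

namespace V6

section

variable {P L : Type} {pt : L → ℤ → P}

/-- The square of a generator. -/
def sq (pt : L → ℤ → P) (x : P) : RR pt :=
  ⟨tt pt x ^ 2, Subgroup.subset_normalClosure ⟨x, rfl⟩⟩

theorem coord_zpow (h : Abs pt) (x : P) : ∃ F : RR pt →* Multiplicative ℤ,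
    (∀ m : ℤ, F (sq pt x ^ m) = ofAdd m) ∧ ∀ y, y ≠ x → ∀ m : ℤ, F (sq pt y ^ m) = 1 := by
  obtain ⟨F, hF⟩ := h.coord x
  refine ⟨F, fun m => ?_, fun y hy m => ?_⟩
  · have h1 : F (sq pt x) = ofAdd 1 := (hF x (sq pt x).2).1 rfl
    rw [map_zpow, h1, ← ofAdd_zsmul, smul_eq_mul, mul_one]
  · have h1 : F (sq pt y) = 1 := (hF y (sq pt y).2).2 hy
    rw [map_zpow, h1, one_zpow]

/-- Powers of generators. -/
theorem pow_inj (h : Abs pt) {x y : P} {m : ℤ} (hm : m ≠ 0)
    (he : tt pt x ^ m = tt pt y ^ m) : x = y := by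
  by_contra hxy
  obtain ⟨F, hF1, hF2⟩ := coord_zpow h x
  have h1 : sq pt x ^ m = sq pt y ^ m := by
    apply Subtype.ext
    change (tt pt x ^ 2) ^ m = (tt pt y ^ 2) ^ m
    have e1 : ∀ z, (tt pt z ^ 2) ^ m = (tt pt z ^ m) ^ 2 := fun z => by
      rw [← zpow_natCast (tt pt z) 2, ← zpow_mul, ← zpow_natCast (tt pt z ^ m) 2, ← zpow_mul,
        mul_comm]
    rw [e1, e1, he]
  have h2 := hF1 m
  rw [h1, hF2 y (Ne.symm hxy) m] at h2
  exact hm (ofAdd.injective h2).symm

/-- The height. -/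
noncomputable def hgt (pt : L → ℤ → P) : KG pt →* Multiplicative ℤ :=
  PresentedGroup.toGroup (f := fun _ => ofAdd 1) (by
    rintro r ⟨l, i, j, rfl⟩
    simp)

theorem hgt_tt (x : P) : hgt pt (tt pt x) = ofAdd 1 := PresentedGroup.toGroup.of _

theorem odd_zpow_mem {x : P} {m : ℤ} (hm : Odd m) : (tt pt x)⁻¹ * tt pt x ^ m ∈ RR pt := by
  obtain ⟨k, rfl⟩ := hm
  have h : (tt pt x)⁻¹ * tt pt x ^ (2 * k + 1) = (tt pt x ^ 2) ^ k := by
    rw [← zpow_natCast, ← zpow_mul, ← zpow_neg_one, ← zpow_add]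
    congr 1
    push_cast
    ring
  rw [h]
  exact Subgroup.zpow_mem _ (sq pt x).2 k

theorem even_zpow_mem {x : P} {m : ℤ} (hm : Even m) : tt pt x ^ m ∈ RR pt := by
  obtain ⟨k, rfl⟩ := hm
  have h : tt pt x ^ (k + k) = (tt pt x ^ 2) ^ k := by
    rw [← zpow_natCast, ← zpow_mul]
    congr 1
    push_cast
    ring
  rw [h]
  exact Subgroup.zpow_mem _ (sq pt x).2 k

theorem odd_odd (h : Abs pt) {x y : P} {a b : ℤ} (ha : Odd a) (hb : Odd b)
    (hm : tt pt x ^ a * tt pt y ^ b ∈ RR pt) : x = y := by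
  apply h.inj x y
  have hn : (RR pt).Normal := Subgroup.normalClosure_normal
  have h1 : tt pt x ^ a * tt pt y ^ b =
      tt pt x * tt pt y * (((tt pt y)⁻¹ * ((tt pt x)⁻¹ * tt pt x ^ a) * (tt pt y)⁻¹⁻¹) *
        ((tt pt y)⁻¹ * tt pt y ^ b)) := by
    group
  rw [h1] at hm
  have h2 : ((tt pt y)⁻¹ * ((tt pt x)⁻¹ * tt pt x ^ a) * (tt pt y)⁻¹⁻¹) *
        ((tt pt y)⁻¹ * tt pt y ^ b) ∈ RR pt :=
    Subgroup.mul_mem _ (hn.conj_mem _ (odd_zpow_mem ha) _) (odd_zpow_mem hb)
  exact (Subgroup.mul_mem_cancel_right _ h2).1 hm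

/-- Three powers. -/
theorem three (h : Abs pt) {x y z : P} {a b c : ℤ} (ha : a ≠ 0)
    (he : tt pt x ^ a * tt pt y ^ b * tt pt z ^ c = 1) : x = y ∨ y = z ∨ x = z := by
  have hn : (RR pt).Normal := Subgroup.normalClosure_normal
  have hsum : a + b + c = 0 := by
    have h1 := congrArg (fun g => toAdd (hgt pt g)) he
    simp only [map_mul, map_zpow, hgt_tt, map_one, toAdd_mul, toAdd_zpow, toAdd_ofAdd, toAdd_one,
      smul_eq_mul, mul_one] at h1
    exact h1
  rcases Int.even_or_odd a with ha2 | ha2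
  · rcases Int.even_or_odd b with hb2 | hb2
    · have hc2 : Even c := by
        obtain ⟨a', ha'⟩ := ha2
        obtain ⟨b', hb'⟩ := hb2
        exact ⟨-a' - b', by omega⟩
      by_contra hne
      push Not at hne
      obtain ⟨hxy, hyz, hxz⟩ := hne
      obtain ⟨a', rfl⟩ := ha2
      obtain ⟨b', rfl⟩ := hb2
      obtain ⟨c', rfl⟩ := hc2
      obtain ⟨F, hF1, hF2⟩ := coord_zpow h x
      have h0 : ∀ (x : P) (k : ℤ), tt pt x ^ (k + k) = (tt pt x ^ 2) ^ k := by
        intro x k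
        rw [← zpow_natCast, ← zpow_mul]
        congr 1
        push_cast
        ring
      have h1 : sq pt x ^ a' * sq pt y ^ b' * sq pt z ^ c' = 1 := by
        apply Subtype.ext
        change (tt pt x ^ 2) ^ a' * (tt pt y ^ 2) ^ b' * (tt pt z ^ 2) ^ c' = 1
        rw [← h0, ← h0, ← h0, he]
      have h2 := congrArg F h1
      rw [map_mul, map_mul, hF1, hF2 y (Ne.symm hxy), hF2 z (Ne.symm hxz), mul_one, mul_one,
        map_one] at h2
      have h3 : a' = 0 := ofAdd.injective h2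
      exact ha (by rw [h3, add_zero])
    · -- `b` and `c` are odd
      have hc2 : Odd c := by
        obtain ⟨a', ha'⟩ := ha2
        obtain ⟨b', hb'⟩ := hb2
        exact ⟨-a' - b' - 1, by omega⟩
      refine Or.inr (Or.inl (odd_odd h hb2 hc2 ?_))
      rw [mul_assoc] at he
      rw [eq_inv_of_mul_eq_one_right he]
      exact Subgroup.inv_mem _ (even_zpow_mem ha2)
  · rcases Int.even_or_odd b with hb2 | hb2
    · have hc2 : Odd c := by
        obtain ⟨a', ha'⟩ := ha2
        obtain ⟨b', hb'⟩ := hb2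
        exact ⟨-a' - b' - 1, by omega⟩
      refine Or.inr (Or.inr (odd_odd h ha2 hc2 ?_))
      have h1 : tt pt x ^ a * tt pt z ^ c =
          (tt pt x ^ a * (tt pt y ^ b)⁻¹ * (tt pt x ^ a)⁻¹) *
            (tt pt x ^ a * tt pt y ^ b * tt pt z ^ c) := by
        group
      rw [h1, he, mul_one]
      exact hn.conj_mem _ (Subgroup.inv_mem _ (even_zpow_mem hb2)) _
    · have hc2 : Even c := by
        obtain ⟨a', ha'⟩ := ha2
        obtain ⟨b', hb'⟩ := hb2
        exact ⟨-a' - b' - 1, by omega⟩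
      refine Or.inl (odd_odd h ha2 hb2 ?_)
      rw [eq_inv_of_mul_eq_one_left he]
      exact Subgroup.inv_mem _ (even_zpow_mem hc2)

end

/-- The main step. -/
theorem main_step (h3 : StV3') (h4 : StV4) (h5 : StV5) (S : Type) (l : S → S → ℕ) (hl : Lab l)
    (u : S)
    (ih : ∀ y : {x : S // x ≠ u}, l u y = 2 → CC (del l u) {c | l u c = 1} y) :
    CC l {u}ᶜ u ∧ ∃ (W : Type) (F : Subgroup.normalClosure {gen l u ^ 2} →* FreeGroup W),
      Function.Injective F := by
  have hA : Abs (ppt l u) := h3 _ _ _ (h5 S l hl u ih)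
  obtain ⟨ρ, i, hi, hρi, hρu, e, he⟩ := h4 S l hl u
  -- elements of the standard subgroup
  have hlift : ∀ a ∈ par l ({u}ᶜ : Set S), ∃ a', i a' = a := by
    intro a ha
    have h1 : par l ({u}ᶜ : Set S) ≤ i.range := by
      unfold par
      rw [Subgroup.closure_le]
      rintro _ ⟨s, hs, rfl⟩
      exact ⟨gen (del l u) ⟨s, hs⟩, hi ⟨s, hs⟩⟩
    exact h1 ha
  have hX : ∀ a', a' ∈ par (del l u) {c | l u c = 1} →
      i a' ∈ par l {c | c ∈ ({u}ᶜ : Set S) ∧ l u c = 1} := by
    intro a' ha'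
    have h1 : par (del l u) {c | l u c = 1} ≤
        (par l {c | c ∈ ({u}ᶜ : Set S) ∧ l u c = 1}).comap i := by
      unfold par
      rw [Subgroup.closure_le]
      rintro _ ⟨s, hs, rfl⟩
      have h2 : gen l (s : S) ∈ par l {c | c ∈ ({u}ᶜ : Set S) ∧ l u c = 1} :=
        Subgroup.subset_closure ⟨(s : S), ⟨s.2, hs⟩, rfl⟩
      rw [← hi] at h2
      exact h2
    exact h1 ha'
  -- conjugates in the kernel
  have hk : ∀ a', i a' * gen l u * (i a')⁻¹ ∈ ρ.ker := by
    intro a'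
    rw [MonoidHom.mem_ker, map_mul, map_mul, hρu, mul_one, ← map_mul, mul_inv_cancel, map_one]
  let c : EA (del l u) → ρ.ker := fun a' => ⟨i a' * gen l u * (i a')⁻¹, hk a'⟩
  have hc : ∀ a', e (c a') = tt (ppt l u) (QuotientGroup.mk a') := fun a' => he a' (hk a')
  have hcz : ∀ (a' : EA (del l u)) (m : ℤ), ((c a' ^ m : ρ.ker) : EA l) =
      i a' * gen l u ^ m * (i a')⁻¹ := by
    intro a' m
    rw [Subgroup.coe_zpow]
    change (i a' * gen l u * (i a')⁻¹) ^ m = _
    rw [conj_zpow]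
  have h1z : ∀ m : ℤ, ((c 1 ^ m : ρ.ker) : EA l) = gen l u ^ m := by
    intro m
    rw [hcz, map_one, one_mul, inv_one, mul_one]
  have hmk : ∀ a' b' : EA (del l u),
      (QuotientGroup.mk a' : PP l u) = QuotientGroup.mk b' →
        a'⁻¹ * b' ∈ par (del l u) {c | l u c = 1} := fun a' b' h => QuotientGroup.eq.1 h
  refine ⟨⟨?_, ?_⟩, ?_⟩
  · intro a ha m hm hc'
    obtain ⟨a', rfl⟩ := hlift a ha
    have h1 : c a' ^ m = c 1 ^ m := by
      apply Subtype.ext
      rw [hcz, h1z]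
      exact hc'
    have h2 := congrArg e h1
    rw [map_zpow, map_zpow, hc, hc] at h2
    have h3 := hmk _ _ (pow_inj hA hm h2).symm
    rw [inv_one, one_mul] at h3
    exact hX _ h3
  · intro a ha b hb k₁ k₂ k₃ hk₁ hk₂ hk₃ hprod
    obtain ⟨a', rfl⟩ := hlift a ha
    obtain ⟨b', rfl⟩ := hlift b hb
    have h1 : c 1 ^ k₁ * c a' ^ k₂ * c b' ^ k₃ = 1 := by
      apply Subtype.ext
      rw [Subgroup.coe_mul, Subgroup.coe_mul, hcz a', hcz b', h1z]
      exact hprod
    have h2 := congrArg e h1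
    rw [map_mul, map_mul, map_zpow, map_zpow, map_zpow, hc, hc, hc, map_one] at h2
    rcases three hA hk₁ h2 with h3 | h3 | h3
    · have h4 := hmk _ _ h3
      rw [inv_one, one_mul] at h4
      exact Or.inl (hX _ h4)
    · have h4 := hX _ (hmk _ _ h3)
      rw [map_mul, map_inv] at h4
      exact Or.inr (Or.inr h4)
    · have h4 := hmk _ _ h3
      rw [inv_one, one_mul] at h4
      exact Or.inr (Or.inl (hX _ h4))
  · -- the normal closure of the square
    obtain ⟨W, F, hF⟩ := hA.free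
    -- every element of the group is a product
    have hker : ∀ x : EA l, x * (i (ρ x))⁻¹ ∈ ρ.ker := by
      intro x
      rw [MonoidHom.mem_ker, map_mul, map_inv, hρi, mul_inv_cancel]
    have hRn : (RR (ppt l u)).Normal := Subgroup.normalClosure_normal
    have hle : ∀ g ∈ Subgroup.normalClosure {gen l u ^ 2}, ∃ hg : g ∈ ρ.ker,
        e ⟨g, hg⟩ ∈ RR (ppt l u) := by
      intro g hg
      have hmem : g ∈ ((RR (ppt l u)).comap e.toMonoidHom).map ρ.ker.subtype := by
        refine (Subgroup.closure_le _).2 ?_ hg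
        intro y hy
        rw [Group.mem_conjugatesOfSet_iff] at hy
        obtain ⟨a, ha, hx⟩ := hy
        rw [isConj_iff] at hx
        obtain ⟨x, hx⟩ := hx
        have ha2 : a = gen l u ^ 2 := ha
        subst ha2
        have hxe : y = x * gen l u ^ 2 * x⁻¹ := hx.symm
        let κ : ρ.ker := ⟨x * (i (ρ x))⁻¹, hker x⟩
        refine ⟨κ * c (ρ x) ^ 2 * κ⁻¹, ?_, ?_⟩
        · change e (κ * c (ρ x) ^ 2 * κ⁻¹) ∈ RR (ppt l u)
          rw [map_mul, map_mul, map_inv, map_pow, hc]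
          exact hRn.conj_mem _ (Subgroup.subset_normalClosure ⟨_, rfl⟩) _
        · change (x * (i (ρ x))⁻¹) * ((i (ρ x) * gen l u * (i (ρ x))⁻¹) ^ 2) *
            (x * (i (ρ x))⁻¹)⁻¹ = y
          rw [hxe, conj_pow]
          have key : ∀ a b c : EA l, a * b⁻¹ * (b * c * b⁻¹) * (a * b⁻¹)⁻¹ = a * c * a⁻¹ := by
            intro a b c
            group
          exact key _ _ _
      obtain ⟨k, hk1, hk2⟩ := hmem
      subst hk2
      exact ⟨k.2, hk1⟩
    let f : Subgroup.normalClosure {gen l u ^ 2} →* RR (ppt l u) :=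
      { toFun := fun g => ⟨e ⟨g, (hle g g.2).1⟩, (hle g g.2).2⟩
        map_one' := by
          apply Subtype.ext
          exact map_one e
        map_mul' := fun g g' => by
          apply Subtype.ext
          exact map_mul e ⟨(g : EA l), (hle g g.2).1⟩ ⟨(g' : EA l), (hle g' g'.2).1⟩ }
    refine ⟨W, F.comp f, hF.comp ?_⟩
    intro g g' h
    have h1 := congrArg (fun z : RR (ppt l u) => (z : KG (ppt l u))) h
    have h2 := e.injective h1
    exact Subtype.ext (congrArg (fun z : ρ.ker => (z : EA l)) h2)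

end V6

/-- Module V6. -/
theorem stV6 (h3 : StV3') (h4 : StV4) (h5 : StV5) : StV6 := by
  have hcard : ∀ (S : Type) [Finite S] (u : S), Nat.card {x : S // x ≠ u} < Nat.card S := by
    intro S _ u
    exact Finite.card_subtype_lt (p := fun x => x ≠ u) (x := u) (fun h => h rfl)
  have hdel : ∀ (S : Type) (l : S → S → ℕ) (u : S), Lab l → Lab (del l u) := by
    intro S l u hl
    exact ⟨fun s t => hl.1 s t, fun s t hst => hl.2 s t fun h => hst (Subtype.ext h)⟩
  have hall : ∀ (S : Type) [Finite S] (l : S → S → ℕ), Lab l → ∀ (T : Set S) (u : S), u ∉ T →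
      CC l T u := by
    refine cc_all_of_compl fun S _ l hl ih u => ?_
    refine (V6.main_step h3 h4 h5 S l hl u fun y hy => ?_).1
    refine ih _ (del l u) (hcard S u) (hdel S l u hl) _ y fun h => ?_
    have h1 : l u y = 1 := h
    omega
  intro S _ l hl
  refine ⟨hall S l hl, fun u => ?_⟩
  refine (V6.main_step h3 h4 h5 S l hl u fun y hy => ?_).2
  refine hall _ (del l u) (hdel S l u hl) _ y fun h => ?_
  have h1 : l u y = 1 := h
  omega

end Pool.Agent.Lib.MP_e6f638_al
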