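import Pool.Agent.Lib.MP_e6f638_al.V.Stmts77

/-!
# All even Artin groups, module V2: cocycles exist and are unique
-/

set_option autoImplicit false

namespace Pool.Agent.Lib.MP_e6f638_al

namespace V2

/-- Two sided products. -/
theorem exC {G : Type} [Group G] (c : ℤ → G) :
    ∃ C : ℤ → G, C 0 = 1 ∧ ∀ q, C (q + 1) = C q * c q := by
  let f : ℕ → G := fun n => Nat.rec 1 (fun n g => g * c n) n
  let g : ℕ → G := fun n => Nat.rec 1 (fun n g => g * (c (-(n + 1 : ℤ)))⁻¹) n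
  have hf0 : f 0 = 1 := rfl
  have hf : ∀ n, f (n + 1) = f n * c n := fun n => rfl
  have hg0 : g 0 = 1 := rfl
  have hg : ∀ n, g (n + 1) = g n * (c (-(n + 1 : ℤ)))⁻¹ := fun n => rfl
  refine ⟨fun q => match q with
    | Int.ofNat n => f n
    | Int.negSucc n => g (n + 1), rfl, ?_⟩
  intro q
  match q with
  | Int.ofNat n =>
    have : (Int.ofNat n + 1 : ℤ) = Int.ofNat (n + 1) := rfl
    rw [this]
    exact hf n
  | Int.negSucc 0 =>
    have : (Int.negSucc 0 + 1 : ℤ) = Int.ofNat 0 := rfl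
    rw [this]
    change f 0 = g (0 + 1) * c (Int.negSucc 0)
    rw [hg, hf0, hg0]
    have : (-((0 : ℕ) + 1 : ℤ)) = Int.negSucc 0 := rfl
    rw [this]
    group
  | Int.negSucc (n + 1) =>
    have : (Int.negSucc (n + 1) + 1 : ℤ) = Int.negSucc n := by
      simp only [Int.negSucc_eq]
      push_cast
      ring
    rw [this]
    change g (n + 1) = g (n + 1 + 1) * c (Int.negSucc (n + 1))
    rw [hg (n + 1)]
    have : (-(((n + 1 : ℕ) : ℤ) + 1 : ℤ)) = Int.negSucc (n + 1) := by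
      simp only [Int.negSucc_eq]
    rw [this]
    group

/-- The two sided product of `c`. -/
noncomputable def cC {G : Type} [Group G] (c : ℤ → G) : ℤ → G := Classical.choose (exC c)

theorem cC_zero {G : Type} [Group G] (c : ℤ → G) : cC c 0 = 1 := (Classical.choose_spec (exC c)).1

theorem cC_succ {G : Type} [Group G] (c : ℤ → G) (q : ℤ) : cC c (q + 1) = cC c q * c q :=
  (Classical.choose_spec (exC c)).2 q

variable {P : Type} {Γ : Geo P} (Ω : Om Γ)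

/-- `v = w z ^ k` for the line `l`, and `w` is the gate. -/
structure LineAt (v : Ω.V) (l : Γ.L) (w : Ω.V) (k : ℤ) : Prop where
  ne : k ≠ 0
  len : Ω.len v = Ω.len w + 2
  dn : ∀ y, Ω.len (Ω.act v y) < Ω.len v ↔ ∃ i, y = Γ.pt l i
  up : ∀ i, Ω.len w < Ω.len (Ω.act w (Γ.pt l i))
  eq : ∀ i, Ω.act v (Γ.pt l (i + k)) = Ω.act w (Γ.pt l i)

variable {Ω}

theorem act_inj {u v : Ω.V} {x : P} (h : Ω.act u x = Ω.act v x) : u = v := by
  rw [← Ω.invol u x, h, Ω.invol]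

theorem up_len {w : Ω.V} {x : P} (h : Ω.len w < Ω.len (Ω.act w x)) :
    Ω.len (Ω.act w x) = Ω.len w + 1 := by
  rcases Ω.step w x with h' | h' <;> omega

theorem dn_len {w : Ω.V} {x : P} (h : Ω.len (Ω.act w x) < Ω.len w) :
    Ω.len w = Ω.len (Ω.act w x) + 1 := by
  rcases Ω.step w x with h' | h' <;> omega

theorem not_dn {w : Ω.V} {x : P} (h : ¬ Ω.len (Ω.act w x) < Ω.len w) :
    Ω.len w < Ω.len (Ω.act w x) := by
  rcases Ω.step w x with h' | h' <;> omega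

theorem up_dn {w : Ω.V} {x : P} (h : Ω.len w < Ω.len (Ω.act w x)) :
    Ω.len (Ω.act (Ω.act w x) x) < Ω.len (Ω.act w x) := by
  rw [Ω.invol]
  exact h

/-- `v = w z ^ k` for a gate `w`. -/
theorem lineAt_of_eq {v w : Ω.V} {l : Γ.L} {k : ℤ} (hk : k ≠ 0)
    (up : ∀ i, Ω.len w < Ω.len (Ω.act w (Γ.pt l i)))
    (eq : ∀ i, Ω.act v (Γ.pt l (i + k)) = Ω.act w (Γ.pt l i)) : LineAt Ω v l w k := by
  obtain ⟨v', h1, h2, h3⟩ := Ω.gate w l up k hk
  have : v = v' := act_inj (x := Γ.pt l (0 + k)) (by rw [eq 0, h3 0])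
  subst this
  exact ⟨hk, h1, h2, up, eq⟩

theorem eq_of_zero {v w : Ω.V} {l : Γ.L}
    (eq : ∀ i, Ω.act v (Γ.pt l (i + 0)) = Ω.act w (Γ.pt l i)) : v = w := by
  have := eq 0
  rw [add_zero] at this
  exact act_inj this

/-- The line, the gate and the exponent are unique. -/
theorem LineAt.unique {v w w' : Ω.V} {l l' : Γ.L} {k k' : ℤ} (h : LineAt Ω v l w k)
    (h' : LineAt Ω v l' w' k') : l = l' ∧ w = w' ∧ k = k' := by
  have hl : l = l' := by
    obtain ⟨m, hm⟩ := (h'.dn (Γ.pt l 0)).1 ((h.dn _).2 ⟨0, rfl⟩)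
    obtain ⟨n, hn⟩ := (h'.dn (Γ.pt l 1)).1 ((h.dn _).2 ⟨1, rfl⟩)
    exact Γ.dig l l' 0 1 m n (by norm_num) hm hn
  subst hl
  have hw : ∀ i, Ω.act w' (Γ.pt l (i + (k - k'))) = Ω.act w (Γ.pt l i) := by
    intro i
    rw [← h'.eq, ← h.eq]
    congr 2
    ring
  have hk : k - k' = 0 := by
    by_contra hne
    have h2 := lineAt_of_eq hne h.up hw
    have h3 := h.len
    have h4 := h'.len
    have h5 := h2.len
    omega
  have hkk : k = k' := by omega
  subst hkk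
  refine ⟨rfl, ?_, rfl⟩
  rw [hk] at hw
  exact (eq_of_zero hw).symm

/-- The recursion: for `x` a down direction of `u`, the values on the edges from `u` to `u.x` and
from `u.x` to `u`. -/
noncomputable def Fx {G : Type} [Group G] (f : Ω.V → G) (u : Ω.V) (x : P) : G × G := by
  classical
  exact if h : ∃ p : Γ.L × Ω.V × ℤ, LineAt Ω u p.1 p.2.1 p.2.2 then
    (fun (C : ℤ → G) (a : ℤ → G) (k : ℤ) (l : Γ.L) =>
      (fun q : ℤ => ((C (q - k))⁻¹ * C q * a q, (a q)⁻¹ * (C q)⁻¹ * C (q - k + 1)))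
        (if hx : ∃ q, x = Γ.pt l (q + k) then hx.choose else 0))
      (cC fun q =>
        (Fx f (Ω.act h.choose.2.1 (Γ.pt h.choose.1 q)) (Γ.pt h.choose.1 q)).2 *
        (Fx f (Ω.act h.choose.2.1 (Γ.pt h.choose.1 q)) (Γ.pt h.choose.1 q)).1)
      (fun q => (Fx f (Ω.act h.choose.2.1 (Γ.pt h.choose.1 q)) (Γ.pt h.choose.1 q)).2)
      h.choose.2.2 h.choose.1
  else (f u, 1)
termination_by Ω.len u
decreasing_by
  all_goals
    have h1 := up_len (h.choose_spec.up q)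
    have h2 := h.choose_spec.len
    omega

/-- The values on the edge from the gate. -/
noncomputable def aa {G : Type} [Group G] (f : Ω.V → G) (w : Ω.V) (l : Γ.L) (q : ℤ) : G :=
  (Fx f (Ω.act w (Γ.pt l q)) (Γ.pt l q)).2

/-- The values on the edge to the gate. -/
noncomputable def bb {G : Type} [Group G] (f : Ω.V → G) (w : Ω.V) (l : Γ.L) (q : ℤ) : G :=
  (Fx f (Ω.act w (Γ.pt l q)) (Γ.pt l q)).1

/-- The product. -/
noncomputable def CC' {G : Type} [Group G] (f : Ω.V → G) (w : Ω.V) (l : Γ.L) : ℤ → G :=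
  cC fun q => aa f w l q * bb f w l q

theorem Fx_line {G : Type} [Group G] (f : Ω.V → G) {u w : Ω.V} {l : Γ.L} {k : ℤ}
    (h : LineAt Ω u l w k) (q : ℤ) :
    Fx f u (Γ.pt l (q + k)) = ((CC' f w l (q - k))⁻¹ * CC' f w l q * aa f w l q,
      (aa f w l q)⁻¹ * (CC' f w l q)⁻¹ * CC' f w l (q - k + 1)) := by
  have h0 : ∃ p : Γ.L × Ω.V × ℤ, LineAt Ω u p.1 p.2.1 p.2.2 := ⟨(l, w, k), h⟩
  have hp : h0.choose = (l, w, k) := by
    obtain ⟨h1, h2, h3⟩ := h0.choose_spec.unique h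
    exact Prod.ext h1 (Prod.ext h2 h3)
  rw [Fx, dif_pos h0]
  rw [hp]
  have hx : ∃ q', Γ.pt l (q + k) = Γ.pt l (q' + k) := ⟨q, rfl⟩
  have hq : hx.choose = q := by
    have := Γ.inj l hx.choose_spec
    omega
  simp only [dif_pos hx, hq]
  rfl

theorem Fx_one {G : Type} [Group G] (f : Ω.V → G) {u : Ω.V}
    (h : ¬ ∃ p : Γ.L × Ω.V × ℤ, LineAt Ω u p.1 p.2.1 p.2.2) (x : P) : Fx f u x = (f u, 1) := by
  rw [Fx, dif_neg h]

open Classical in
/-- The cocycle. -/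
noncomputable def ph {G : Type} [Group G] (f : Ω.V → G) (v : Ω.V) (x : P) : G :=
  if Ω.len (Ω.act v x) < Ω.len v then (Fx f v x).1 else (Fx f (Ω.act v x) x).2

theorem ph_dn {G : Type} [Group G] (f : Ω.V → G) {v : Ω.V} {x : P}
    (h : Ω.len (Ω.act v x) < Ω.len v) : ph f v x = (Fx f v x).1 := if_pos h

theorem ph_up {G : Type} [Group G] (f : Ω.V → G) {v : Ω.V} {x : P}
    (h : Ω.len v < Ω.len (Ω.act v x)) : ph f v x = (Fx f (Ω.act v x) x).2 :=
  if_neg (by omega)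

theorem ph_a {G : Type} [Group G] (f : Ω.V → G) {w : Ω.V} {l : Γ.L}
    (up : ∀ i, Ω.len w < Ω.len (Ω.act w (Γ.pt l i))) (q : ℤ) :
    ph f w (Γ.pt l q) = aa f w l q := ph_up f (up q)

theorem ph_b {G : Type} [Group G] (f : Ω.V → G) {w : Ω.V} {l : Γ.L}
    (up : ∀ i, Ω.len w < Ω.len (Ω.act w (Γ.pt l i))) (q : ℤ) :
    ph f (Ω.act w (Γ.pt l q)) (Γ.pt l q) = bb f w l q := by
  rw [ph_dn f (up_dn (up q))]
  rfl

/-- The closed formulas. -/
theorem ph_formula {G : Type} [Group G] (f : Ω.V → G) {v w : Ω.V} {l : Γ.L} {k : ℤ}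
    (up : ∀ i, Ω.len w < Ω.len (Ω.act w (Γ.pt l i)))
    (eq : ∀ i, Ω.act v (Γ.pt l (i + k)) = Ω.act w (Γ.pt l i)) (q : ℤ) :
    ph f v (Γ.pt l (q + k)) = (CC' f w l (q - k))⁻¹ * CC' f w l q * aa f w l q ∧
    ph f (Ω.act w (Γ.pt l q)) (Γ.pt l (q + k)) =
      (aa f w l q)⁻¹ * (CC' f w l q)⁻¹ * CC' f w l (q - k + 1) := by
  by_cases hk : k = 0
  · subst hk
    have hv := eq_of_zero eq
    subst hv
    rw [add_zero, sub_zero, ph_a f up, ph_b f up]
    refine ⟨by group, ?_⟩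
    have : CC' f v l (q + 1) = CC' f v l q * (aa f v l q * bb f v l q) := cC_succ _ q
    rw [this]
    group
  · have hL := lineAt_of_eq hk up eq
    have hd : Ω.len (Ω.act v (Γ.pt l (q + k))) < Ω.len v := (hL.dn _).2 ⟨_, rfl⟩
    constructor
    · rw [ph_dn f hd, Fx_line f hL]
    · have hv : Ω.act (Ω.act w (Γ.pt l q)) (Γ.pt l (q + k)) = v := by
        rw [← eq q, Ω.invol]
      have hu : Ω.len (Ω.act w (Γ.pt l q)) <
          Ω.len (Ω.act (Ω.act w (Γ.pt l q)) (Γ.pt l (q + k))) := by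
        rw [hv, ← eq q]
        exact hd
      rw [ph_up f hu, hv, Fx_line f hL]

/-- Existence of `w z ^ k`. -/
theorem ex_gate {w : Ω.V} {l : Γ.L} (up : ∀ i, Ω.len w < Ω.len (Ω.act w (Γ.pt l i))) (k : ℤ) :
    ∃ v, ∀ i, Ω.act v (Γ.pt l (i + k)) = Ω.act w (Γ.pt l i) := by
  by_cases hk : k = 0
  · subst hk
    exact ⟨w, fun i => by rw [add_zero]⟩
  · obtain ⟨v, -, -, h⟩ := Ω.gate w l up k hk
    exact ⟨v, h⟩

/-- A line and a vertex: the gate. -/
theorem classify (l : Γ.L) : ∀ (n : ℕ) (v : Ω.V), Ω.len v = n →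
    ∃ w : Ω.V, (∀ i, Ω.len w < Ω.len (Ω.act w (Γ.pt l i))) ∧
      ((∃ k, ∀ i, Ω.act v (Γ.pt l (i + k)) = Ω.act w (Γ.pt l i)) ∨
        ∃ p, v = Ω.act w (Γ.pt l p)) := by
  intro n
  induction n using Nat.strong_induction_on with
  | _ n ih =>
    intro v hv
    by_cases h0 : ∀ i, Ω.len v < Ω.len (Ω.act v (Γ.pt l i))
    · exact ⟨v, h0, Or.inl ⟨0, fun i => by rw [add_zero]⟩⟩
    push Not at h0
    obtain ⟨p, hp⟩ := h0
    have hp' : Ω.len (Ω.act v (Γ.pt l p)) < Ω.len v := by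
      rcases Ω.step v (Γ.pt l p) with h | h <;> omega
    obtain ⟨g, hg, hu⟩ := ih _ (hv ▸ hp') (Ω.act v (Γ.pt l p)) rfl
    refine ⟨g, hg, ?_⟩
    rcases hu with ⟨k, hk⟩ | ⟨j, hj⟩
    · right
      refine ⟨p - k, ?_⟩
      rw [← hk, sub_add_cancel, Ω.invol]
    · left
      obtain ⟨v', h'⟩ := ex_gate hg (p - j)
      have : v' = v := by
        have h2 := h' j
        rw [add_sub_cancel, ← hj] at h2
        exact act_inj h2
      subst this
      exact ⟨p - j, h'⟩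

theorem ph_rel {G : Type} [Group G] (f : Ω.V → G) (v : Ω.V) (l : Γ.L) : ∃ z : G, ∀ i : ℤ,
    ph f v (Γ.pt l i) * ph f (Ω.act v (Γ.pt l i)) (Γ.pt l (i + 1)) = z := by
  obtain ⟨w, up, ⟨k, hk⟩ | ⟨p, rfl⟩⟩ := classify l _ v rfl
  · refine ⟨1, fun i => ?_⟩
    have h1 := (ph_formula f up hk (i - k)).1
    obtain ⟨v', h'⟩ := ex_gate up (k + 1)
    have h2 := (ph_formula f up h' (i - k)).2
    have h3 := hk (i - k)
    rw [sub_add_cancel] at h1 h3
    rw [show i - k + (k + 1) = i + 1 by ring, show i - k - (k + 1) + 1 = i - k - k by ring] at h2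
    rw [h3, h1, h2]
    group
  · refine ⟨(aa f w l p)⁻¹ * (CC' f w l p)⁻¹ * (CC' f w l (p + 1) * aa f w l (p + 1)),
      fun i => ?_⟩
    obtain ⟨v', h'⟩ := ex_gate up (i - p)
    have h1 := (ph_formula f up h' p).2
    have h2 := (ph_formula f up h' (p + 1)).1
    have h3 := h' p
    rw [add_sub_cancel] at h1 h3
    rw [show p + 1 + (i - p) = i + 1 by ring] at h2
    rw [← h3, Ω.invol, h2, h3, h1]
    rw [show p - (i - p) + 1 = p + 1 - (i - p) by ring]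
    group

theorem single_not_line {v : Ω.V} {x : P} (h : ∀ y, Ω.len (Ω.act v y) < Ω.len v ↔ y = x) :
    ¬ ∃ p : Γ.L × Ω.V × ℤ, LineAt Ω v p.1 p.2.1 p.2.2 := by
  rintro ⟨⟨l, w, k⟩, hL⟩
  have h0 : Γ.pt l 0 = x := (h _).1 ((hL.dn _).2 ⟨0, rfl⟩)
  have h1 : Γ.pt l 1 = x := (h _).1 ((hL.dn _).2 ⟨1, rfl⟩)
  have := Γ.inj l (h0.trans h1.symm)
  omega

theorem coc_ph {G : Type} [Group G] (f : Ω.V → G) : Coc Ω f (ph f) := by
  refine ⟨?_, ?_, ?_⟩
  · intro v l i j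
    obtain ⟨z, hz⟩ := ph_rel f v l
    rw [hz, hz]
  · intro v x h
    have hd : Ω.len (Ω.act v x) < Ω.len v := (h x).2 rfl
    have hu : Ω.len (Ω.act v x) < Ω.len (Ω.act (Ω.act v x) x) := by
      rw [Ω.invol]
      exact hd
    constructor
    · rw [ph_up f hu, Ω.invol, Fx_one f (single_not_line h)]
    · rw [ph_dn f hd, Fx_one f (single_not_line h)]
  · intro w l up v k hk q
    obtain ⟨v', h'⟩ := ex_gate up (k + 1)
    have h1 := (ph_formula f up hk q).1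
    have h2 := (ph_formula f up h' q).2
    rw [show q + (k + 1) = q + k + 1 by ring, show q - (k + 1) + 1 = q - k by ring] at h2
    rw [h1, h2]
    group

/-- Two cocycles agree on `w z ^ k` if they agree at the gate. -/
theorem agree_line {G : Type} [Group G] {f : Ω.V → G} {φ ψ : Ω.V → P → G} (h1 : Coc Ω f φ)
    (h2 : Coc Ω f ψ) {w : Ω.V} {l : Γ.L} (up : ∀ i, Ω.len w < Ω.len (Ω.act w (Γ.pt l i)))
    (ha : ∀ q, φ w (Γ.pt l q) = ψ w (Γ.pt l q))
    (hb : ∀ q, φ (Ω.act w (Γ.pt l q)) (Γ.pt l q) = ψ (Ω.act w (Γ.pt l q)) (Γ.pt l q)) :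
    ∀ k : ℤ, ∀ v, (∀ i, Ω.act v (Γ.pt l (i + k)) = Ω.act w (Γ.pt l i)) → ∀ q,
      φ v (Γ.pt l (q + k)) = ψ v (Γ.pt l (q + k)) ∧
      φ (Ω.act w (Γ.pt l q)) (Γ.pt l (q + k)) = ψ (Ω.act w (Γ.pt l q)) (Γ.pt l (q + k)) := by
  -- the relation at an odd vertex
  have hr : ∀ (χ : Ω.V → P → G), Coc Ω f χ → ∀ (k : ℤ) (v : Ω.V),
      (∀ i, Ω.act v (Γ.pt l (i + k)) = Ω.act w (Γ.pt l i)) → ∀ q,
      χ (Ω.act w (Γ.pt l q)) (Γ.pt l (q + k)) * χ v (Γ.pt l (q + k + 1)) =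
        χ (Ω.act w (Γ.pt l q)) (Γ.pt l q) * χ w (Γ.pt l (q + 1)) := by
    intro χ hχ k v hv q
    have := hχ.rel (Ω.act w (Γ.pt l q)) l (q + k) q
    rw [Ω.invol] at this
    rw [← this]
    congr 2
    rw [← hv q, Ω.invol]
  intro k
  induction k using Int.induction_on with
  | zero =>
    intro v hv q
    have := eq_of_zero hv
    subst this
    rw [add_zero]
    exact ⟨ha q, hb q⟩
  | succ k ih =>
    intro v hv q
    obtain ⟨u, hu⟩ := ex_gate up (k : ℤ)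
    have hB : ∀ q, φ (Ω.act w (Γ.pt l q)) (Γ.pt l (q + (k + 1))) =
        ψ (Ω.act w (Γ.pt l q)) (Γ.pt l (q + (k + 1))) := by
      intro q
      have e1 := h1.gau w l up u k hu q
      have e2 := h2.gau w l up u k hu q
      rw [(ih u hu q).1, add_assoc] at e1
      rw [add_assoc] at e2
      exact mul_left_cancel (e1.trans e2.symm)
    refine ⟨?_, hB q⟩
    have e1 := hr φ h1 (k + 1) v hv (q - 1)
    have e2 := hr ψ h2 (k + 1) v hv (q - 1)
    rw [hB, hb, ha, ← e2] at e1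
    have e3 := mul_left_cancel e1
    rwa [show q - 1 + ((k : ℤ) + 1) + 1 = q + (k + 1) by ring] at e3
  | pred k ih =>
    intro v hv q
    obtain ⟨u, hu⟩ := ex_gate up (-(k : ℤ))
    have hA : ∀ q, φ v (Γ.pt l (q + (-(k : ℤ) - 1))) = ψ v (Γ.pt l (q + (-(k : ℤ) - 1))) := by
      intro q
      have e1 := h1.gau w l up v _ hv q
      have e2 := h2.gau w l up v _ hv q
      rw [show q + (-(k : ℤ) - 1) + 1 = q + -(k : ℤ) by ring] at e1 e2
      rw [(ih u hu q).2] at e1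
      exact mul_right_cancel (e1.trans e2.symm)
    refine ⟨hA q, ?_⟩
    have e1 := hr φ h1 _ v hv q
    have e2 := hr ψ h2 _ v hv q
    rw [show q + (-(k : ℤ) - 1) + 1 = q + 1 + (-(k : ℤ) - 1) by ring] at e1 e2
    rw [hA, hb, ha, ← e2] at e1
    exact mul_right_cancel e1

theorem agree {G : Type} [Group G] {f : Ω.V → G} {φ ψ : Ω.V → P → G} (h1 : Coc Ω f φ)
    (h2 : Coc Ω f ψ) : ∀ (n : ℕ) (v : Ω.V), Ω.len v = n → ∀ x, Ω.len (Ω.act v x) < Ω.len v →
      φ v x = ψ v x ∧ φ (Ω.act v x) x = ψ (Ω.act v x) x := by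
  intro n
  induction n using Nat.strong_induction_on with
  | _ n ih =>
    intro v hv x hx
    have hvo : v ≠ Ω.o := by
      rintro rfl
      rw [Ω.len_o] at hx
      omega
    rcases Ω.down v hvo with ⟨y, hy⟩ | ⟨l, w, k, hk, hlen, hdn, up, heq⟩
    · have : x = y := (hy x).1 hx
      subst this
      have e1 := h1.one v x hy
      have e2 := h2.one v x hy
      exact ⟨e1.2.trans e2.2.symm, e1.1.trans e2.1.symm⟩
    · have hlow : ∀ q, ψ (Ω.act w (Γ.pt l q)) (Γ.pt l q) = φ (Ω.act w (Γ.pt l q)) (Γ.pt l q) ∧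
          ψ w (Γ.pt l q) = φ w (Γ.pt l q) := by
        intro q
        have hl := up_len (up q)
        have := ih (Ω.len (Ω.act w (Γ.pt l q))) (by omega) _ rfl (Γ.pt l q) (up_dn (up q))
        rw [Ω.invol] at this
        exact ⟨this.1.symm, this.2.symm⟩
      obtain ⟨i, rfl⟩ := (hdn x).1 hx
      have := agree_line h1 h2 up (fun q => (hlow q).2.symm) (fun q => (hlow q).1.symm) k v heq
        (i - k)
      rw [sub_add_cancel] at this
      refine ⟨this.1, ?_⟩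
      have h3 := heq (i - k)
      rw [sub_add_cancel] at h3
      rw [h3]
      exact this.2

end V2

/-- Module V2. Cocycles exist and are unique. -/
theorem stV2 : StV2 := by
  intro P Γ Ω G _ f
  refine ⟨⟨V2.ph f, V2.coc_ph f⟩, ?_⟩
  intro φ ψ h1 h2
  funext v x
  by_cases hx : Ω.len (Ω.act v x) < Ω.len v
  · exact (V2.agree h1 h2 _ v rfl x hx).1
  · have hu := V2.not_dn hx
    have := (V2.agree h1 h2 _ (Ω.act v x) rfl x (V2.up_dn hu)).2
    rwa [Ω.invol] at this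

end Pool.Agent.Lib.MP_e6f638_al
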