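import Pool.Agent.Lib.MP_e6f638_al.V.Stmts77

/-!
# The abstract theorem from the graph and its cocycles
-/

set_option autoImplicit false

namespace Pool.Agent.Lib.MP_e6f638_al

open Multiplicative

namespace V3

section Graph

variable {P : Type} {Γ : Geo P} (Ω : Om Γ)

/-- `w` is a gate for the line `l`. -/
def Gt (w : Ω.V) (l : Γ.L) : Prop := ∀ i, Ω.len w < Ω.len (Ω.act w (Γ.pt l i))

theorem act_inj {v w : Ω.V} {x : P} (h : Ω.act v x = Ω.act w x) : v = w := by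
  rw [← Ω.invol v x, h, Ω.invol]

theorem notlt {v : Ω.V} {x : P} (h : ¬ Ω.len v < Ω.len (Ω.act v x)) :
    Ω.len v = Ω.len (Ω.act v x) + 1 := by
  rcases Ω.step v x with h1 | h1
  · omega
  · exact h1

/-- The vertices `w z ^ k`. -/
theorem zz {w : Ω.V} {l : Γ.L} (h : Gt Ω w l) (k : ℤ) :
    ∃ v, ∀ i, Ω.act v (Γ.pt l (i + k)) = Ω.act w (Γ.pt l i) := by
  by_cases hk : k = 0
  · subst hk
    exact ⟨w, fun i => by rw [add_zero]⟩
  · obtain ⟨v, -, -, hv⟩ := Ω.gate w l h k hk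
    exact ⟨v, hv⟩

theorem zz_len {w v : Ω.V} {l : Γ.L} (h : Gt Ω w l) {k : ℤ} (hk : k ≠ 0)
    (hv : ∀ i, Ω.act v (Γ.pt l (i + k)) = Ω.act w (Γ.pt l i)) :
    Ω.len v = Ω.len w + 2 ∧ ∀ y, Ω.len (Ω.act v y) < Ω.len v ↔ ∃ i, y = Γ.pt l i := by
  obtain ⟨v', h1, h2, h3⟩ := Ω.gate w l h k hk
  have : v = v' := act_inj Ω ((hv 0).trans (h3 0).symm)
  subst this
  exact ⟨h1, h2⟩

/-- Every pair of a vertex and a line is of one of two kinds. -/
theorem cls (l : Γ.L) : ∀ (n : ℕ) (v : Ω.V), Ω.len v = n →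
    (∃ w k, Gt Ω w l ∧ ∀ i, Ω.act v (Γ.pt l (i + k)) = Ω.act w (Γ.pt l i)) ∨
      ∃ w p, Gt Ω w l ∧ v = Ω.act w (Γ.pt l p) := by
  intro n
  induction n using Nat.strong_induction_on with
  | _ n ih =>
    intro v hn
    by_cases hg : Gt Ω v l
    · exact Or.inl ⟨v, 0, hg, fun i => by rw [add_zero]⟩
    · unfold Gt at hg
      push Not at hg
      obtain ⟨p, hp⟩ := hg
      have hlen : Ω.len v = Ω.len (Ω.act v (Γ.pt l p)) + 1 := notlt Ω (not_lt.2 hp)
      rcases ih (Ω.len (Ω.act v (Γ.pt l p))) (by omega) _ rfl with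
        ⟨u, k, hu, hk⟩ | ⟨u, q, hu, hq⟩
      · by_cases hk0 : k = 0
        · subst hk0
          have : Ω.act v (Γ.pt l p) = u := by
            have h1 := hk 0
            rw [add_zero] at h1
            exact act_inj Ω h1
          refine Or.inr ⟨u, p, hu, ?_⟩
          rw [← this, Ω.invol]
        · exfalso
          have h1 := ((zz_len Ω hu hk0 hk).2 (Γ.pt l p)).2 ⟨p, rfl⟩
          rw [Ω.invol] at h1
          omega
      · refine Or.inl ⟨u, p - q, hu, ?_⟩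
        obtain ⟨v', hv'⟩ := zz Ω hu (p - q)
        have h1 := hv' q
        rw [show q + (p - q) = p by ring, ← hq] at h1
        have h2 : v' = v := act_inj Ω h1
        subst h2
        exact hv'

/-- The relation. -/
theorem act_rel (v : Ω.V) (l : Γ.L) (i j : ℤ) :
    Ω.act (Ω.act v (Γ.pt l i)) (Γ.pt l (i + 1)) = Ω.act (Ω.act v (Γ.pt l j)) (Γ.pt l (j + 1)) := by
  rcases cls Ω l _ v rfl with ⟨w, k, hw, hk⟩ | ⟨w, p, hw, rfl⟩
  · obtain ⟨v', hv'⟩ := zz Ω hw (k + 1)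
    have key : ∀ i, Ω.act (Ω.act v (Γ.pt l i)) (Γ.pt l (i + 1)) = v' := by
      intro i
      have h1 := hk (i - k)
      rw [show i - k + k = i by ring] at h1
      have h2 := hv' (i - k)
      rw [show i - k + (k + 1) = i + 1 by ring] at h2
      rw [h1, ← h2, Ω.invol]
    rw [key, key]
  · have key : ∀ i, Ω.act (Ω.act (Ω.act w (Γ.pt l p)) (Γ.pt l i)) (Γ.pt l (i + 1)) =
        Ω.act w (Γ.pt l (p + 1)) := by
      intro i
      obtain ⟨v', hv'⟩ := zz Ω hw (i - p)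
      have h1 := hv' p
      rw [show p + (i - p) = i by ring] at h1
      have h2 := hv' (p + 1)
      rw [show p + 1 + (i - p) = i + 1 by ring] at h2
      rw [← h1, Ω.invol, h2]
    rw [key, key]

/-- Uniqueness of the gate. -/
theorem gate_unique {v w w' : Ω.V} {l l' : Γ.L} {k k' : ℤ} (hw : Gt Ω w l) (hw' : Gt Ω w' l')
    (hk : k ≠ 0) (hk' : k' ≠ 0) (h : ∀ i, Ω.act v (Γ.pt l (i + k)) = Ω.act w (Γ.pt l i))
    (h' : ∀ i, Ω.act v (Γ.pt l' (i + k')) = Ω.act w' (Γ.pt l' i)) :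
    l = l' ∧ w = w' ∧ k = k' := by
  have h1 := zz_len Ω hw hk h
  have h2 := zz_len Ω hw' hk' h'
  have h3 : ∀ i, ∃ j, Γ.pt l i = Γ.pt l' j := fun i => (h2.2 _).1 ((h1.2 _).2 ⟨i, rfl⟩)
  obtain ⟨a, ha⟩ := h3 0
  obtain ⟨b, hb⟩ := h3 1
  have hl : l = l' := Γ.dig l l' 0 1 a b (by norm_num) ha hb
  subst hl
  refine ⟨rfl, ?_⟩
  have h4 : ∀ i, Ω.act w' (Γ.pt l (i + (k - k'))) = Ω.act w (Γ.pt l i) := by
    intro i
    rw [← h, ← h']
    congr 2
    ring
  by_cases hkk : k - k' = 0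
  · have h5 := h4 0
    rw [hkk, add_zero] at h5
    exact ⟨(act_inj Ω h5).symm, by omega⟩
  · exfalso
    have h5 := (zz_len Ω hw hkk h4).1
    omega

/-- A vertex with a unique down direction is not of the form `w z ^ k`. -/
theorem one_not {v w : Ω.V} {x : P} (hx : ∀ y, Ω.len (Ω.act v y) < Ω.len v ↔ y = x) {l : Γ.L}
    {k : ℤ} (hk : k ≠ 0) (hw : Gt Ω w l)
    (h : ∀ i, Ω.act v (Γ.pt l (i + k)) = Ω.act w (Γ.pt l i)) : False := by
  have h1 := (zz_len Ω hw hk h).2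
  have h2 := (hx _).1 ((h1 _).2 ⟨0, rfl⟩)
  have h3 := (hx _).1 ((h1 _).2 ⟨1, rfl⟩)
  have h4 := Γ.inj l (h2.trans h3.symm)
  omega

/-- The down directions of `act o x`. -/
theorem down_one (x : P) : ∀ y, Ω.len (Ω.act (Ω.act Ω.o x) y) < Ω.len (Ω.act Ω.o x) ↔ y = x := by
  have hlen : Ω.len (Ω.act Ω.o x) = 1 := by
    rcases Ω.step Ω.o x with h | h
    · rw [h, Ω.len_o]
    · rw [Ω.len_o] at h
      omega
  have hlt : Ω.len (Ω.act (Ω.act Ω.o x) x) < Ω.len (Ω.act Ω.o x) := by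
    rw [Ω.invol, Ω.len_o, hlen]
    norm_num
  have hne : Ω.act Ω.o x ≠ Ω.o := by
    intro h
    rw [h, Ω.len_o] at hlen
    omega
  rcases Ω.down _ hne with ⟨x', hx'⟩ | ⟨l, w, k, -, h1, -⟩
  · have : x = x' := (hx' x).1 hlt
    subst this
    exact hx'
  · omega

theorem act_o_inj {x y : P} (h : Ω.act Ω.o x = Ω.act Ω.o y) : x = y := by
  have h1 := (down_one Ω x x).2 rfl
  rw [h] at h1
  exact (down_one Ω y x).1 h1

end Graph

/-! ## The group -/

section Group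

variable {P L : Type} (pt : L → ℤ → P)

theorem KG_ind {C : KG pt → Prop} (one : C 1) (gen : ∀ x, C (tt pt x))
    (mul : ∀ a b, C a → C b → C (a * b)) (inv : ∀ a, C a → C a⁻¹) : ∀ r, C r := by
  intro r
  have hr : r ∈ Subgroup.closure (Set.range (PresentedGroup.of (rels := lrels pt))) := by
    rw [PresentedGroup.closure_range_of]
    exact Subgroup.mem_top r
  induction hr using Subgroup.closure_induction with
  | mem a ha =>
    obtain ⟨x, rfl⟩ := ha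
    exact gen x
  | one => exact one
  | mul a b _ _ iha ihb => exact mul a b iha ihb
  | inv a _ iha => exact inv a iha

theorem tt_rel (l : L) (i j : ℤ) :
    tt pt (pt l i) * tt pt (pt l (i + 1)) = tt pt (pt l j) * tt pt (pt l (j + 1)) := by
  have h : PresentedGroup.mk (lrels pt) (FreeGroup.of (pt l i) * FreeGroup.of (pt l (i + 1)) *
      (FreeGroup.of (pt l j) * FreeGroup.of (pt l (j + 1)))⁻¹) = 1 := by
    exact PresentedGroup.one_of_mem ⟨l, i, j, rfl⟩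
  rw [map_mul, map_inv, map_mul, map_mul, mul_inv_eq_one] at h
  exact h

end Group

section Action

variable {P : Type} {Γ : Geo P} (Ω : Om Γ)

/-- The generators act as involutions. -/
def aperm (x : P) : Equiv.Perm Ω.V where
  toFun v := Ω.act v x
  invFun v := Ω.act v x
  left_inv v := Ω.invol v x
  right_inv v := Ω.invol v x

/-- The action on the vertices. -/
def A : KG Γ.pt →* (Equiv.Perm Ω.V)ᵐᵒᵖ :=
  PresentedGroup.toGroup (f := fun x => MulOpposite.op (aperm Ω x)) (by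
    rintro r ⟨l, i, j, rfl⟩
    rw [map_mul, map_inv, map_mul, map_mul, mul_inv_eq_one, FreeGroup.lift_apply_of,
      FreeGroup.lift_apply_of, FreeGroup.lift_apply_of, FreeGroup.lift_apply_of,
      ← MulOpposite.op_mul, ← MulOpposite.op_mul]
    congr 1
    ext v
    exact act_rel Ω v l i j)

theorem A_tt (x : P) : A Ω (tt Γ.pt x) = MulOpposite.op (aperm Ω x) :=
  PresentedGroup.toGroup.of _

variable {G : Type} [Group G] (φ : Ω.V → P → G)

/-- The generators act on pairs. -/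
def bperm (x : P) : Equiv.Perm (G × Ω.V) where
  toFun p := (p.1 * φ p.2 x, Ω.act p.2 x)
  invFun p := (p.1 * (φ (Ω.act p.2 x) x)⁻¹, Ω.act p.2 x)
  left_inv p := by
    simp only [Ω.invol]
    rw [mul_inv_cancel_right]
  right_inv p := by
    simp only [Ω.invol]
    rw [inv_mul_cancel_right]

/-- The relations for the values. -/
def Rel : Prop := ∀ (v : Ω.V) (l : Γ.L) (i j : ℤ),
  φ v (Γ.pt l i) * φ (Ω.act v (Γ.pt l i)) (Γ.pt l (i + 1)) =
    φ v (Γ.pt l j) * φ (Ω.act v (Γ.pt l j)) (Γ.pt l (j + 1))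

variable {φ}

/-- The action on pairs. -/
def B (hφ : Rel Ω φ) : KG Γ.pt →* (Equiv.Perm (G × Ω.V))ᵐᵒᵖ :=
  PresentedGroup.toGroup (f := fun x => MulOpposite.op (bperm Ω φ x)) (by
    rintro r ⟨l, i, j, rfl⟩
    rw [map_mul, map_inv, map_mul, map_mul, mul_inv_eq_one, FreeGroup.lift_apply_of,
      FreeGroup.lift_apply_of, FreeGroup.lift_apply_of, FreeGroup.lift_apply_of,
      ← MulOpposite.op_mul, ← MulOpposite.op_mul]
    congr 1
    refine Equiv.ext fun p => ?_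
    refine Prod.ext ?_ ?_
    · change p.1 * φ p.2 (Γ.pt l i) * φ (Ω.act p.2 (Γ.pt l i)) (Γ.pt l (i + 1)) =
        p.1 * φ p.2 (Γ.pt l j) * φ (Ω.act p.2 (Γ.pt l j)) (Γ.pt l (j + 1))
      rw [mul_assoc, mul_assoc, hφ]
    · exact act_rel Ω p.2 l i j)

theorem B_tt (hφ : Rel Ω φ) (x : P) : B Ω hφ (tt Γ.pt x) = MulOpposite.op (bperm Ω φ x) :=
  PresentedGroup.toGroup.of _

theorem B_mul (hφ : Rel Ω φ) (a b : KG Γ.pt) (p : G × Ω.V) :
    (B Ω hφ (a * b)).unop p = (B Ω hφ b).unop ((B Ω hφ a).unop p) := by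
  rw [map_mul, MulOpposite.unop_mul]
  rfl

theorem B_inv (hφ : Rel Ω φ) (a : KG Γ.pt) (p : G × Ω.V) :
    (B Ω hφ a).unop ((B Ω hφ a⁻¹).unop p) = p := by
  rw [← B_mul, inv_mul_cancel, map_one]
  rfl

/-- The second coordinate. -/
theorem B_snd (hφ : Rel Ω φ) : ∀ (r : KG Γ.pt) (p : G × Ω.V),
    ((B Ω hφ r).unop p).2 = (A Ω r).unop p.2 := by
  refine KG_ind Γ.pt ?_ ?_ ?_ ?_
  · intro p
    rw [map_one, map_one]
    rfl
  · intro x p
    rw [B_tt, A_tt]
    rfl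
  · intro a b ha hb p
    rw [B_mul, hb, ha, map_mul, MulOpposite.unop_mul]
    rfl
  · intro a ha p
    have h1 := ha ((B Ω hφ a⁻¹).unop p)
    rw [B_inv] at h1
    have h2 : (A Ω a⁻¹).unop ((A Ω a).unop ((B Ω hφ a⁻¹).unop p).2) =
        ((B Ω hφ a⁻¹).unop p).2 := by
      have h3 : (A Ω (a * a⁻¹)).unop ((B Ω hφ a⁻¹).unop p).2 = ((B Ω hφ a⁻¹).unop p).2 := by
        rw [mul_inv_cancel, map_one]
        rfl
      rw [map_mul, MulOpposite.unop_mul] at h3
      exact h3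
    rw [h1, h2]

/-- The first coordinate. -/
theorem B_left (hφ : Rel Ω φ) : ∀ (r : KG Γ.pt) (g h : G) (v : Ω.V),
    (B Ω hφ r).unop (h * g, v) = (h * ((B Ω hφ r).unop (g, v)).1, ((B Ω hφ r).unop (g, v)).2) := by
  refine KG_ind Γ.pt ?_ ?_ ?_ ?_
  · intro g h v
    rw [map_one]
    rfl
  · intro x g h v
    rw [B_tt]
    refine Prod.ext ?_ rfl
    exact mul_assoc h g _
  · intro a b ha hb g h v
    rw [B_mul, B_mul, ha, hb]
  · intro a ha g h v
    have h1 := ha ((B Ω hφ a⁻¹).unop (g, v)).1 h ((B Ω hφ a⁻¹).unop (g, v)).2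
    rw [Prod.mk.eta, B_inv] at h1
    have h2 := congrArg (fun q => (B Ω hφ a⁻¹).unop q) h1
    simp only [] at h2
    rw [← B_mul, mul_inv_cancel, map_one] at h2
    exact h2.symm

/-- The relators of squares act trivially. -/
theorem RR_A {r : KG Γ.pt} (hr : r ∈ RR Γ.pt) : A Ω r = 1 := by
  have h1 : RR Γ.pt ≤ (A Ω).ker := by
    refine Subgroup.normalClosure_le_normal ?_
    rintro _ ⟨x, rfl⟩
    rw [SetLike.mem_coe, MonoidHom.mem_ker, map_pow, A_tt, pow_two, ← MulOpposite.op_mul]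
    congr 1
    ext v
    exact Ω.invol v x
  exact h1 hr

theorem RR_B (hφ : Rel Ω φ) {r : KG Γ.pt} (hr : r ∈ RR Γ.pt) (p : G × Ω.V) :
    ((B Ω hφ r).unop p).2 = p.2 := by
  rw [B_snd, RR_A Ω hr]
  rfl

/-- The homomorphism on the normal closure of the squares. -/
def Fh (hφ : Rel Ω φ) : RR Γ.pt →* G where
  toFun r := ((B Ω hφ r).unop (1, Ω.o)).1
  map_one' := by
    rw [OneMemClass.coe_one, map_one]
    rfl
  map_mul' r s := by
    rw [Subgroup.coe_mul, B_mul]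
    have h1 : (B Ω hφ r).unop (1, Ω.o) = (((B Ω hφ r).unop (1, Ω.o)).1 * 1, Ω.o) := by
      refine Prod.ext ?_ ?_
      · exact (mul_one _).symm
      · exact RR_B Ω hφ r.2 _
    rw [h1, B_left, mul_one]

theorem Fh_apply (hφ : Rel Ω φ) (r : RR Γ.pt) : Fh Ω hφ r = ((B Ω hφ r).unop (1, Ω.o)).1 := rfl

end Action

/-! ## Words for the vertices -/

section Sigma

variable {P : Type} {Γ : Geo P} (Ω : Om Γ)

open Classical in
/-- A word for every vertex. -/
noncomputable def sig (v : Ω.V) : KG Γ.pt :=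
  if v = Ω.o then 1 else
    if h1 : ∃ x, ∀ y, Ω.len (Ω.act v y) < Ω.len v ↔ y = x then
      sig (Ω.act v h1.choose) * tt Γ.pt h1.choose
    else
      if h2 : ∃ q : Γ.L × Ω.V × ℤ, q.2.2 ≠ 0 ∧ Ω.len v = Ω.len q.2.1 + 2 ∧ Gt Ω q.2.1 q.1 ∧
          ∀ i, Ω.act v (Γ.pt q.1 (i + q.2.2)) = Ω.act q.2.1 (Γ.pt q.1 i) then
        sig h2.choose.2.1 * (tt Γ.pt (Γ.pt h2.choose.1 0) * tt Γ.pt (Γ.pt h2.choose.1 1)) ^
          h2.choose.2.2
      else 1
termination_by Ω.len v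
decreasing_by
  · exact (h1.choose_spec _).2 rfl
  · have := h2.choose_spec.2.1
    omega

theorem sig_o : sig Ω Ω.o = 1 := by
  rw [sig, if_pos rfl]

theorem sig_one {v : Ω.V} {x : P} (h : ∀ y, Ω.len (Ω.act v y) < Ω.len v ↔ y = x) :
    sig Ω v = sig Ω (Ω.act v x) * tt Γ.pt x := by
  have h1 : ∃ x, ∀ y, Ω.len (Ω.act v y) < Ω.len v ↔ y = x := ⟨x, h⟩
  have hx : h1.choose = x := by
    have h2 := (h1.choose_spec x).1 ((h x).2 rfl)
    exact h2.symm
  have hne : v ≠ Ω.o := by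
    rintro rfl
    have h2 := (h x).2 rfl
    rw [Ω.len_o] at h2
    omega
  rw [sig, if_neg hne, dif_pos h1, hx]

theorem sig_two {v w : Ω.V} {l : Γ.L} {k : ℤ} (hw : Gt Ω w l)
    (h : ∀ i, Ω.act v (Γ.pt l (i + k)) = Ω.act w (Γ.pt l i)) :
    sig Ω v = sig Ω w * (tt Γ.pt (Γ.pt l 0) * tt Γ.pt (Γ.pt l 1)) ^ k := by
  by_cases hk : k = 0
  · subst hk
    have h1 := h 0
    rw [add_zero] at h1
    rw [act_inj Ω h1, zpow_zero, mul_one]
  · have h1 : ¬ ∃ x, ∀ y, Ω.len (Ω.act v y) < Ω.len v ↔ y = x := by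
      rintro ⟨x, hx⟩
      exact one_not Ω hx hk hw h
    have hlen := (zz_len Ω hw hk h).1
    have hne : v ≠ Ω.o := by
      rintro rfl
      rw [Ω.len_o] at hlen
      omega
    have h2 : ∃ q : Γ.L × Ω.V × ℤ, q.2.2 ≠ 0 ∧ Ω.len v = Ω.len q.2.1 + 2 ∧ Gt Ω q.2.1 q.1 ∧
          ∀ i, Ω.act v (Γ.pt q.1 (i + q.2.2)) = Ω.act q.2.1 (Γ.pt q.1 i) :=
      ⟨(l, w, k), hk, hlen, hw, h⟩
    obtain ⟨e1, e2, e3⟩ := gate_unique Ω hw h2.choose_spec.2.2.1 hk h2.choose_spec.1 h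
      h2.choose_spec.2.2.2
    rw [sig, if_neg hne, dif_neg h1, dif_pos h2, ← e1, ← e2, ← e3]

/-- The product of two consecutive generators of a line. -/
theorem tt_mul (l : Γ.L) (i : ℤ) : tt Γ.pt (Γ.pt l i) * tt Γ.pt (Γ.pt l (i + 1)) =
    tt Γ.pt (Γ.pt l 0) * tt Γ.pt (Γ.pt l 1) := tt_rel Γ.pt l i 0

/-- The cocycle of the words. -/
noncomputable def rho (v : Ω.V) (x : P) : KG Γ.pt := sig Ω v * tt Γ.pt x * (sig Ω (Ω.act v x))⁻¹

open Classical in
/-- Its values on the vertices with a unique down direction. -/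
noncomputable def fr (v : Ω.V) : KG Γ.pt :=
  if h1 : ∃ x, ∀ y, Ω.len (Ω.act v y) < Ω.len v ↔ y = x then rho Ω v h1.choose else 1

theorem coc_rho : Coc Ω (fr Ω) (rho Ω) where
  rel v l i j := by
    have key : ∀ i, rho Ω v (Γ.pt l i) * rho Ω (Ω.act v (Γ.pt l i)) (Γ.pt l (i + 1)) =
        sig Ω v * (tt Γ.pt (Γ.pt l 0) * tt Γ.pt (Γ.pt l 1)) *
          (sig Ω (Ω.act (Ω.act v (Γ.pt l i)) (Γ.pt l (i + 1))))⁻¹ := by
      intro i
      rw [← tt_mul l i]
      unfold rho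
      group
    rw [key, key, act_rel Ω v l i j]
  one v x h := by
    constructor
    · unfold rho
      rw [Ω.invol, sig_one Ω h, mul_inv_cancel]
    · have h1 : ∃ x, ∀ y, Ω.len (Ω.act v y) < Ω.len v ↔ y = x := ⟨x, h⟩
      have hx : h1.choose = x := ((h1.choose_spec x).1 ((h x).2 rfl)).symm
      rw [fr, dif_pos h1, hx]
  gau w l hw v k hk q := by
    have hv := sig_two Ω hw hk
    have hv' : sig Ω (Ω.act (Ω.act w (Γ.pt l q)) (Γ.pt l (q + k + 1))) =
        sig Ω w * (tt Γ.pt (Γ.pt l 0) * tt Γ.pt (Γ.pt l 1)) ^ (k + 1) := by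
      obtain ⟨v', h'⟩ := zz Ω hw (k + 1)
      have h1 := h' q
      rw [show q + (k + 1) = q + k + 1 by ring] at h1
      rw [← h1, Ω.invol]
      exact sig_two Ω hw h'
    unfold rho
    rw [hk q, hv', zpow_add_one, ← mul_assoc (sig Ω w), ← hv, ← tt_mul l (q + k)]
    group

end Sigma

section Final

variable {P : Type} {Γ : Geo P} (Ω : Om Γ)

theorem coc_map {G H : Type} [Group G] [Group H] {f : Ω.V → G} {φ : Ω.V → P → G}
    (h : Coc Ω f φ) (g : G →* H) : Coc Ω (fun v => g (f v)) (fun v x => g (φ v x)) where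
  rel v l i j := by
    rw [← map_mul, ← map_mul, h.rel v l i j]
  one v x hx := by
    obtain ⟨h1, h2⟩ := h.one v x hx
    rw [h1, h2, map_one]
    exact ⟨rfl, rfl⟩
  gau w l hw v k hk q := by
    rw [← map_mul, h.gau w l hw v k hk q, map_one]

/-- The values in the free group give back the element. -/
theorem B_word {G : Type} [Group G] {φ : Ω.V → P → G} (hφ : Rel Ω φ) (g : G →* KG Γ.pt)
    (hg : ∀ v x, g (φ v x) = rho Ω v x) : ∀ (r : KG Γ.pt) (p : G × Ω.V),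
    g ((B Ω hφ r).unop p).1 = g p.1 * sig Ω p.2 * r * (sig Ω ((B Ω hφ r).unop p).2)⁻¹ := by
  refine KG_ind Γ.pt ?_ ?_ ?_ ?_
  · intro p
    rw [map_one]
    change g p.1 = g p.1 * sig Ω p.2 * 1 * (sig Ω p.2)⁻¹
    group
  · intro x p
    rw [B_tt]
    change g (p.1 * φ p.2 x) = g p.1 * sig Ω p.2 * tt Γ.pt x * (sig Ω (Ω.act p.2 x))⁻¹
    rw [map_mul, hg, rho]
    group
  · intro a b ha hb p
    rw [B_mul, hb, ha]
    group
  · intro a ha p
    have h1 := ha ((B Ω hφ a⁻¹).unop p)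
    rw [B_inv] at h1
    rw [h1]
    group

include Ω in
theorem abs (h2 : StV2) : Abs Γ.pt where
  inj x y h := by
    have h1 := RR_A Ω h
    rw [map_mul, A_tt, A_tt, ← MulOpposite.op_mul] at h1
    have h3 : (aperm Ω y * aperm Ω x) Ω.o = Ω.o := by
      have h4 := congrArg MulOpposite.unop h1
      rw [MulOpposite.unop_op, MulOpposite.unop_one] at h4
      rw [h4]
      rfl
    have h5 : Ω.act (Ω.act Ω.o x) y = Ω.o := h3
    have h6 : Ω.act Ω.o x = Ω.act Ω.o y := by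
      rw [← h5, Ω.invol, h5]
    exact act_o_inj Ω h6
  free := by
    obtain ⟨φ, hφ⟩ := (h2 P Γ Ω (FreeGroup Ω.V) FreeGroup.of).1
    refine ⟨Ω.V, Fh Ω hφ.rel, ?_⟩
    have hc := coc_map Ω hφ (FreeGroup.lift (fr Ω))
    simp only [FreeGroup.lift_apply_of] at hc
    have he := (h2 P Γ Ω (KG Γ.pt) (fr Ω)).2 _ _ hc (coc_rho Ω)
    have hg : ∀ v x, FreeGroup.lift (fr Ω) (φ v x) = rho Ω v x := fun v x =>
      congrFun (congrFun he v) x
    rw [injective_iff_map_eq_one]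
    intro r hr
    have h3 := B_word Ω hφ.rel (FreeGroup.lift (fr Ω)) hg r (1, Ω.o)
    rw [← Fh_apply, hr, RR_B Ω hφ.rel r.2, sig_o, map_one] at h3
    simp only [one_mul, inv_one, mul_one] at h3
    exact Subtype.ext h3.symm
  coord x := by
    classical
    obtain ⟨φ, hφ⟩ := (h2 P Γ Ω (Multiplicative ℤ)
      (fun v => if v = Ω.act Ω.o x then ofAdd 1 else 1)).1
    refine ⟨Fh Ω hφ.rel, fun y h => ?_⟩
    have h3 : Fh Ω hφ.rel ⟨tt Γ.pt y ^ 2, h⟩ =
        if Ω.act Ω.o y = Ω.act Ω.o x then ofAdd 1 else 1 := by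
      have h6 : Fh Ω hφ.rel ⟨tt Γ.pt y ^ 2, h⟩ = 1 * φ Ω.o y * φ (Ω.act Ω.o y) y := by
        change ((B Ω hφ.rel (tt Γ.pt y ^ 2)).unop (1, Ω.o)).1 = _
        rw [pow_two, B_mul, B_tt]
        rfl
      rw [h6]
      obtain ⟨h4, h5⟩ := hφ.one (Ω.act Ω.o y) y (down_one Ω y)
      rw [Ω.invol] at h4
      rw [h4, h5, one_mul, one_mul]
    rw [h3]
    constructor
    · rintro rfl
      rw [if_pos rfl]
    · intro hyx
      rw [if_neg]
      exact fun he => hyx (act_o_inj Ω he)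

end Final

end V3

/-- Module V3, from V1 and V2. -/
theorem stV3_of (h1 : StV1) (h2 : StV2) : StV3 := fun P Γ => (h1 P Γ).elim fun Ω => V3.abs Ω h2

end Pool.Agent.Lib.MP_e6f638_al
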