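import Pool.Agent.Lib.MP_e6f638_al.V.V1_77
import Pool.Agent.Lib.MP_e6f638_al.V.V2_29
import Pool.Agent.Lib.MP_e6f638_al.V.V3_40

/-!
# The abstract theorem
-/

set_option autoImplicit false

namespace Pool.Agent.Lib.MP_e6f638_al

/-- Module V3. -/
theorem stV3 : StV3 := stV3_of stV1 stV2

end Pool.Agent.Lib.MP_e6f638_al
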