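import Pool.Agent.Lib.MP_e6f638_al.V.Stmts77

/-!
# Module V3': from unique labels of the lines to labels up to a shift
-/

set_option autoImplicit false

namespace Pool.Agent.Lib.MP_e6f638_al

open Multiplicative

/-- The conclusions of the abstract theorem for a set of relators. -/
structure AbsR38 {P : Type} (rels : Set (FreeGroup P)) : Prop where
  inj : ∀ x y : P, (PresentedGroup.of x : PresentedGroup rels) * PresentedGroup.of y ∈
    Subgroup.normalClosure (Set.range fun x : P => (PresentedGroup.of x : PresentedGroup rels) ^ 2)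
      → x = y
  free : ∃ (W : Type) (F : Subgroup.normalClosure
      (Set.range fun x : P => (PresentedGroup.of x : PresentedGroup rels) ^ 2) →* FreeGroup W),
    Function.Injective F
  coord : ∀ x : P, ∃ F : Subgroup.normalClosure
      (Set.range fun x : P => (PresentedGroup.of x : PresentedGroup rels) ^ 2) →*
        Multiplicative ℤ,
    ∀ (y : P) (h : (PresentedGroup.of y : PresentedGroup rels) ^ 2 ∈ Subgroup.normalClosure
      (Set.range fun x : P => (PresentedGroup.of x : PresentedGroup rels) ^ 2)),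
    (y = x → F ⟨PresentedGroup.of y ^ 2, h⟩ = ofAdd 1) ∧
      (y ≠ x → F ⟨PresentedGroup.of y ^ 2, h⟩ = 1)

theorem Abs.toR38 {P L : Type} {pt : L → ℤ → P} (h : Abs pt) : AbsR38 (lrels pt) :=
  ⟨h.inj, h.free, h.coord⟩

theorem AbsR38.toAbs38 {P L : Type} {pt : L → ℤ → P} (h : AbsR38 (lrels pt)) : Abs pt :=
  ⟨h.inj, h.free, h.coord⟩

/-- Labels up to a shift. -/
def shift38 {P L : Type} (pt : L → ℤ → P) : Setoid L where
  r l l' := ∃ c : ℤ, ∀ i, pt l' i = pt l (i + c)
  iseqv :=
    { refl := fun l => ⟨0, fun i => by rw [add_zero]⟩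
      symm := by
        rintro l l' ⟨c, hc⟩
        refine ⟨-c, fun i => ?_⟩
        rw [hc]
        congr 1
        ring
      trans := by
        rintro l l' l'' ⟨c, hc⟩ ⟨d, hd⟩
        refine ⟨d + c, fun i => ?_⟩
        rw [hd, hc]
        congr 1
        ring }

/-- The points and lines with one label for every line. -/
noncomputable def geo38 {P L : Type} (pt : L → ℤ → P) (hG : IsGeo pt) : Geo P where
  L := Quotient (shift38 pt)
  pt q := pt q.out
  inj q := hG.inj q.out
  dig q q' m n m' n' hmn h1 h2 := by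
    have h3 := hG.dig q.out q'.out m n m' n' hmn h1 h2
    have h4 : Quotient.mk (shift38 pt) q.out = Quotient.mk (shift38 pt) q'.out := Quotient.sound h3
    rwa [Quotient.out_eq, Quotient.out_eq] at h4
  tri q₁ q₂ q₃ a₁ b₁ a₂ b₂ a₃ b₃ n1 n2 n3 h1 h2 h3 := by
    have key : ∀ q q' : Quotient (shift38 pt), (∃ c : ℤ, ∀ i, pt q'.out i = pt q.out (i + c)) →
        q = q' := by
      intro q q' h
      have h4 : Quotient.mk (shift38 pt) q.out = Quotient.mk (shift38 pt) q'.out :=
        Quotient.sound h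
      rwa [Quotient.out_eq, Quotient.out_eq] at h4
    rcases hG.tri q₁.out q₂.out q₃.out a₁ b₁ a₂ b₂ a₃ b₃ n1 n2 n3 h1 h2 h3 with h | h | h
    · exact key _ _ h
    · have e := key _ _ h
      subst e
      exact key _ _ (hG.dig q₁.out q₂.out b₁ a₁ a₂ b₃ n1.symm h1 h3.symm)
    · have e := key _ _ h
      subst e
      exact (key _ _ (hG.dig q₂.out q₃.out a₂ b₂ b₁ a₃ n2 h1.symm h2)).symm

theorem lrels_geo38 {P L : Type} (pt : L → ℤ → P) (hG : IsGeo pt) :
    lrels (geo38 pt hG).pt = lrels pt := by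
  ext r
  constructor
  · rintro ⟨q, i, j, h⟩
    exact ⟨Quotient.out q, i, j, h⟩
  · rintro ⟨l, i, j, h⟩
    have h1 : (shift38 pt).r (Quotient.out (Quotient.mk (shift38 pt) l)) l :=
      Quotient.mk_out (s := shift38 pt) l
    obtain ⟨c, hc⟩ := h1
    refine ⟨Quotient.mk (shift38 pt) l, i + c, j + c, ?_⟩
    rw [h, hc i, hc (i + 1), hc j, hc (j + 1)]
    show FreeGroup.of (pt _ (i + c)) * FreeGroup.of (pt _ (i + 1 + c)) *
        (FreeGroup.of (pt _ (j + c)) * FreeGroup.of (pt _ (j + 1 + c)))⁻¹ =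
      FreeGroup.of (pt _ (i + c)) * FreeGroup.of (pt _ (i + c + 1)) *
        (FreeGroup.of (pt _ (j + c)) * FreeGroup.of (pt _ (j + c + 1)))⁻¹
    rw [show i + 1 + c = i + c + 1 by ring, show j + 1 + c = j + c + 1 by ring]

/-- Module V3'. The abstract theorem. -/
theorem stV3' (h3 : StV3) : StV3' := by
  intro P L pt hG
  have h := (h3 P (geo38 pt hG)).toR38
  rw [lrels_geo38] at h
  exact h.toAbs38

end Pool.Agent.Lib.MP_e6f638_al
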