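import Pool.Agent.Lib.MP_e6f638_al.V.Stmts77
import Pool.Agent.Lib.MP_e6f638_al.I1

/-!
# Module V4: the kernel of the retraction killing `u`
-/

set_option autoImplicit false

namespace Pool.Agent.Lib.MP_e6f638_al

namespace V4

open Multiplicative

section KG

variable {P L : Type} (pt : L → ℤ → P)

theorem tt_rel (p : L) (i j : ℤ) :
    tt pt (pt p i) * tt pt (pt p (i + 1)) = tt pt (pt p j) * tt pt (pt p (j + 1)) := by
  have h : (PresentedGroup.mk (lrels pt)) (FreeGroup.of (pt p i) * FreeGroup.of (pt p (i + 1)) *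
      (FreeGroup.of (pt p j) * FreeGroup.of (pt p (j + 1)))⁻¹) = 1 :=
    PresentedGroup.one_of_mem ⟨p, i, j, rfl⟩
  rw [map_mul, map_inv, map_mul, map_mul, mul_inv_eq_one] at h
  exact h

/-- The homomorphism given on the generators. -/
def liftKG {K : Type} [Group K] (f : P → K)
    (h : ∀ p i j, f (pt p i) * f (pt p (i + 1)) = f (pt p j) * f (pt p (j + 1))) : KG pt →* K :=
  PresentedGroup.toGroup (f := f) (by
    rintro r ⟨p, i, j, rfl⟩
    simp only [map_mul, map_inv, FreeGroup.lift_apply_of, mul_inv_eq_one]
    exact h p i j)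

theorem liftKG_tt {K : Type} [Group K] (f : P → K)
    (h : ∀ p i j, f (pt p i) * f (pt p (i + 1)) = f (pt p j) * f (pt p (j + 1))) (x : P) :
    liftKG pt f h (tt pt x) = f x :=
  PresentedGroup.toGroup.of _

theorem hom_ext_KG {K : Type} [Group K] {F F' : KG pt →* K}
    (h : ∀ x, F (tt pt x) = F' (tt pt x)) : F = F' :=
  PresentedGroup.ext h

end KG

variable {S : Type} (l : S → S → ℕ) (u : S)

theorem smul_ppt (b : EA (del l u)) (p : LL l u) (n : ℤ) :
    b • ppt l u p n = ppt l u (b * p.1, p.2) n := by
  show b • (QuotientGroup.mk (p.1 * gen (del l u) p.2 ^ n) : PP l u) =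
    QuotientGroup.mk (b * p.1 * gen (del l u) p.2 ^ n)
  rw [MulAction.Quotient.smul_mk, smul_eq_mul, mul_assoc]

/-- The action of an element on the group of the points and lines. -/
noncomputable def act (b : EA (del l u)) : KG (ppt l u) →* KG (ppt l u) :=
  liftKG (ppt l u) (fun x => tt (ppt l u) (b • x)) (fun p i j => by
    rw [smul_ppt, smul_ppt, smul_ppt, smul_ppt]
    exact tt_rel (ppt l u) (b * p.1, p.2) i j)

theorem act_tt (b : EA (del l u)) (x : PP l u) :
    act l u b (tt (ppt l u) x) = tt (ppt l u) (b • x) := liftKG_tt _ _ _ _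

theorem act_one (k : KG (ppt l u)) : act l u 1 k = k := by
  have : act l u 1 = MonoidHom.id _ := by
    refine hom_ext_KG _ fun x => ?_
    rw [act_tt, one_smul]; rfl
  exact DFunLike.congr_fun this k

theorem act_mul (a b : EA (del l u)) (k : KG (ppt l u)) :
    act l u (a * b) k = act l u a (act l u b k) := by
  have : act l u (a * b) = (act l u a).comp (act l u b) := by
    refine hom_ext_KG _ fun x => ?_
    rw [act_tt, MonoidHom.comp_apply, act_tt, act_tt, mul_smul]
  exact DFunLike.congr_fun this k

/-- The action as a homomorphism to the automorphism group. -/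
noncomputable def al : EA (del l u) →* MulAut (KG (ppt l u)) where
  toFun b :=
    { toFun := act l u b
      invFun := act l u b⁻¹
      left_inv := fun k => by rw [← act_mul, inv_mul_cancel, act_one]
      right_inv := fun k => by rw [← act_mul, mul_inv_cancel, act_one]
      map_mul' := map_mul _ }
  map_one' := by
    ext k
    exact act_one l u k
  map_mul' a b := by
    ext k
    exact act_mul l u a b k

theorem al_apply (b : EA (del l u)) (k : KG (ppt l u)) : al l u b k = act l u b k := rfl

theorem al_tt (b : EA (del l u)) (a : EA (del l u)) :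
    al l u b (tt (ppt l u) (QuotientGroup.mk a)) = tt (ppt l u) (QuotientGroup.mk (b * a)) := by
  rw [al_apply, act_tt, MulAction.Quotient.smul_mk, smul_eq_mul]

/-- The semidirect product. -/
abbrev SD : Type := KG (ppt l u) ⋊[al l u] EA (del l u)

/-- The base point. -/
noncomputable def t0 : KG (ppt l u) := tt (ppt l u) (QuotientGroup.mk 1)

variable {l}

theorem rel_one {t : {x : S // x ≠ u}} (h : l u t = 1) :
    al l u (gen (del l u) t) (t0 l u) = t0 l u := by
  rw [t0, al_tt]
  congr 1
  refine (QuotientGroup.eq.2 ?_).symm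
  rw [inv_one, one_mul, mul_one]
  exact gen_mem_par (del l u) h

theorem rel_two {t : {x : S // x ≠ u}} (h : l u t = 2) :
    t0 l u * al l u (gen (del l u) t) (t0 l u) =
      al l u (gen (del l u) t) (t0 l u) *
        al l u (gen (del l u) t) (al l u (gen (del l u) t) (t0 l u)) := by
  have h1 := tt_rel (ppt l u) ((1 : EA (del l u)), (⟨t, h⟩ : {y : {x : S // x ≠ u} // l u y = 2}))
    0 1
  have e0 : ppt l u ((1 : EA (del l u)), (⟨t, h⟩ : {y : {x : S // x ≠ u} // l u y = 2})) 0 =
      QuotientGroup.mk 1 := by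
    show (QuotientGroup.mk (1 * gen (del l u) t ^ (0 : ℤ)) : PP l u) = _
    rw [zpow_zero, mul_one]
  have e1 : ppt l u ((1 : EA (del l u)), (⟨t, h⟩ : {y : {x : S // x ≠ u} // l u y = 2})) 1 =
      QuotientGroup.mk (gen (del l u) t * 1) := by
    show (QuotientGroup.mk (1 * gen (del l u) t ^ (1 : ℤ)) : PP l u) = _
    rw [zpow_one, one_mul, mul_one]
  have e2 : ppt l u ((1 : EA (del l u)), (⟨t, h⟩ : {y : {x : S // x ≠ u} // l u y = 2})) (1 + 1) =
      QuotientGroup.mk (gen (del l u) t * (gen (del l u) t * 1)) := by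
    show (QuotientGroup.mk (1 * gen (del l u) t ^ ((1 : ℤ) + 1)) : PP l u) = _
    rw [zpow_add, zpow_one, one_mul, mul_one]
  rw [zero_add, e0, e1, e2] at h1
  rw [t0, al_tt, al_tt]
  exact h1

/-- The map to the semidirect product. -/
theorem exists_Phi (hL : Lab l) : ∃ Φ : EA l →* SD l u,
    Φ (gen l u) = SemidirectProduct.inl (t0 l u) ∧
    ∀ s : {x : S // x ≠ u}, Φ (gen l s) = SemidirectProduct.inr (gen (del l u) s) := by
  classical
  have key : ∀ t : {x : S // x ≠ u},
      ((SemidirectProduct.inl (t0 l u) : SD l u) * SemidirectProduct.inr (gen (del l u) t)) ^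
        l u t = (SemidirectProduct.inr (gen (del l u) t) * SemidirectProduct.inl (t0 l u)) ^
        l u t := by
    intro t
    rcases hL.2 u t (Ne.symm t.2) with h | h
    · rw [h, pow_one, pow_one]
      ext
      · simp only [SemidirectProduct.mul_left, SemidirectProduct.left_inl,
          SemidirectProduct.right_inl, SemidirectProduct.left_inr, SemidirectProduct.right_inr,
          map_one, mul_one, one_mul]
        exact (rel_one u h).symm
      · simp
    · rw [h, pow_two, pow_two]
      ext
      · simp only [SemidirectProduct.mul_left, SemidirectProduct.mul_right,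
          SemidirectProduct.left_inl,
          SemidirectProduct.right_inl, SemidirectProduct.left_inr, SemidirectProduct.right_inr,
          map_one, mul_one, one_mul]
        exact rel_two u h
      · simp
  refine ⟨liftEA l (fun s => if h : s = u then SemidirectProduct.inl (t0 l u) else
    SemidirectProduct.inr (gen (del l u) ⟨s, h⟩)) ?_, ?_, ?_⟩
  · intro s t
    by_cases hs : s = u
    · by_cases ht : t = u
      · simp only [dif_pos hs, dif_pos ht]
      · simp only [dif_pos hs, dif_neg ht]
        subst hs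
        exact key ⟨t, ht⟩
    · by_cases ht : t = u
      · simp only [dif_neg hs, dif_pos ht]
        subst ht
        rw [hL.1 s t]
        exact (key ⟨s, hs⟩).symm
      · simp only [dif_neg hs, dif_neg ht]
        have h := gen_rel (del l u) ⟨s, hs⟩ ⟨t, ht⟩
        have h2 := congrArg (SemidirectProduct.inr : EA (del l u) →* SD l u) h
        rw [map_pow, map_pow, map_mul, map_mul] at h2
        exact h2
  · rw [liftEA_gen, dif_pos rfl]
  · intro s
    rw [liftEA_gen, dif_neg s.2]

/-- The inclusion of the complement of `u`. -/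
noncomputable def ii : EA (del l u) →* EA l :=
  liftEA (del l u) (fun s => gen l s) (fun s t => gen_rel l s t)

theorem ii_gen (s : {x : S // x ≠ u}) : ii (l := l) u (gen (del l u) s) = gen l s :=
  liftEA_gen _ _ _ _

theorem comm_two {G : Type} [Group G] {a y : G} (h : (a * y) ^ 2 = (y * a) ^ 2) (i : ℤ) :
    y ^ i * a * (y ^ i)⁻¹ * (y ^ (i + 1) * a * (y ^ (i + 1))⁻¹) = a * y * a * y⁻¹ := by
  have h1 : Commute (a * y * a * y⁻¹) y := by
    show a * y * a * y⁻¹ * y = y * (a * y * a * y⁻¹)
    rw [inv_mul_cancel_right]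
    have h2 : a * y * a * y = y * a * y * a := by
      rw [pow_two, pow_two] at h
      simpa only [mul_assoc] using h
    calc a * y * a = a * y * a * y * y⁻¹ := by group
      _ = y * (a * y * a * y⁻¹) := by rw [h2]; group
  have h3 : y ^ i * (a * y * a * y⁻¹) = (a * y * a * y⁻¹) * y ^ i := ((h1.zpow_right i).eq).symm
  calc y ^ i * a * (y ^ i)⁻¹ * (y ^ (i + 1) * a * (y ^ (i + 1))⁻¹)
      = y ^ i * (a * y * a * y⁻¹) * (y ^ i)⁻¹ := by
        rw [zpow_add, zpow_one]; group
    _ = a * y * a * y⁻¹ := by rw [h3, mul_inv_cancel_right]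

theorem ii_comm (hL : Lab l) {x : EA (del l u)}
    (hx : x ∈ par (del l u) {c | l u c = 1}) : Commute (ii (l := l) u x) (gen l u) := by
  induction hx using Subgroup.closure_induction with
  | mem x hx =>
    obtain ⟨s, hs, rfl⟩ := hx
    rw [ii_gen]
    have h1 := gen_rel l s u
    have h2 : l (s : S) u = 1 := by rw [hL.1]; exact hs
    rw [h2, pow_one, pow_one] at h1
    exact h1
  | one => rw [map_one]; exact Commute.one_left _
  | mul x z _ _ hx hz => rw [map_mul]; exact hx.mul_left hz
  | inv x _ hx => rw [map_inv]; exact hx.inv_left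

/-- The value on a point. -/
noncomputable def pv (hL : Lab l) (x : PP l u) : EA l :=
  Quotient.liftOn' x (fun a => ii (l := l) u a * gen l u * (ii (l := l) u a)⁻¹) (by
    intro a b hab
    have h1 : a⁻¹ * b ∈ par (del l u) {c | l u c = 1} := QuotientGroup.leftRel_apply.1 hab
    have h2 := (ii_comm u hL h1).eq
    have h3 : b = a * (a⁻¹ * b) := by group
    show ii (l := l) u a * gen l u * (ii (l := l) u a)⁻¹ =
      ii (l := l) u b * gen l u * (ii (l := l) u b)⁻¹
    rw [h3, map_mul, mul_assoc (ii (l := l) u a) (ii (l := l) u (a⁻¹ * b)), h2]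
    group)

theorem pv_mk (hL : Lab l) (a : EA (del l u)) :
    pv u hL (QuotientGroup.mk a) = ii (l := l) u a * gen l u * (ii (l := l) u a)⁻¹ := rfl

/-- The map back on the group of the points and lines. -/
noncomputable def psi (hL : Lab l) : KG (ppt l u) →* EA l :=
  liftKG (ppt l u) (pv u hL) (by
    rintro ⟨g, y⟩ i j
    have h1 : ∀ i : ℤ, pv u hL (ppt l u (g, y) i) * pv u hL (ppt l u (g, y) (i + 1)) =
        ii (l := l) u g * (gen l u * gen l y * gen l u * (gen l y)⁻¹) *
          (ii (l := l) u g)⁻¹ := by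
      intro i
      have h2 := gen_rel l u y
      rw [y.2] at h2
      have h3 := comm_two h2 i
      show pv u hL (QuotientGroup.mk (g * gen (del l u) y ^ i)) *
        pv u hL (QuotientGroup.mk (g * gen (del l u) y ^ (i + 1))) = _
      rw [pv_mk, pv_mk, map_mul, map_mul, map_zpow, map_zpow, ii_gen, ← h3]
      group
    rw [h1, h1])

theorem psi_tt (hL : Lab l) (a : EA (del l u)) : psi u hL (tt (ppt l u) (QuotientGroup.mk a)) =
    ii (l := l) u a * gen l u * (ii (l := l) u a)⁻¹ := by
  rw [psi, liftKG_tt, pv_mk]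

theorem psi_al (hL : Lab l) (b : EA (del l u)) (k : KG (ppt l u)) :
    psi u hL (al l u b k) = ii (l := l) u b * psi u hL k * (ii (l := l) u b)⁻¹ := by
  have : (psi u hL).comp (al l u b).toMonoidHom =
      (MulAut.conj (ii (l := l) u b)).toMonoidHom.comp (psi u hL) := by
    refine hom_ext_KG _ fun x => ?_
    induction x using QuotientGroup.induction_on with
    | H a =>
      show psi u hL (al l u b (tt (ppt l u) (QuotientGroup.mk a))) =
        ii (l := l) u b * psi u hL (tt (ppt l u) (QuotientGroup.mk a)) * (ii (l := l) u b)⁻¹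
      rw [al_tt, psi_tt, psi_tt, map_mul]
      group
  exact DFunLike.congr_fun this k

end V4

open V4 in
theorem stV4 : StV4 := by
  intro S l hL u
  obtain ⟨Φ, hΦu, hΦ⟩ := exists_Phi u hL
  have hΦi : ∀ a : EA (del l u), Φ (ii (l := l) u a) = SemidirectProduct.inr a := by
    intro a
    have : Φ.comp (ii (l := l) u) = SemidirectProduct.inr := by
      refine hom_ext_EA _ fun s => ?_
      rw [MonoidHom.comp_apply, ii_gen, hΦ]
    exact DFunLike.congr_fun this a
  set ρ : EA l →* EA (del l u) := SemidirectProduct.rightHom.comp Φ with hρ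
  have hρa : ∀ x, ρ x = (Φ x).right := fun x => rfl
  have hρi : ∀ a, ρ (ii (l := l) u a) = a := by
    intro a
    rw [hρa, hΦi]; rfl
  have hρu : ρ (gen l u) = 1 := by
    rw [hρa, hΦu]; rfl
  -- the map back
  have hconj : ∀ b : EA (del l u), (psi u hL).comp (al l u b).toMonoidHom =
      (MulAut.conj (ii (l := l) u b)).toMonoidHom.comp (psi u hL) := by
    intro b
    exact MonoidHom.ext fun k => psi_al u hL b k
  set Ψ : SD l u →* EA l := SemidirectProduct.lift (psi u hL) (ii (l := l) u) hconj with hΨ
  have hΨΦ : ∀ x, Ψ (Φ x) = x := by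
    intro x
    have : Ψ.comp Φ = MonoidHom.id _ := by
      refine hom_ext_EA _ fun s => ?_
      by_cases hs : s = u
      · subst hs
        rw [MonoidHom.comp_apply, hΦu, hΨ, SemidirectProduct.lift_inl, t0, psi_tt, map_one]
        simp
      · rw [MonoidHom.comp_apply, hΦ ⟨s, hs⟩, hΨ, SemidirectProduct.lift_inr, ii_gen]
        rfl
    exact DFunLike.congr_fun this x
  have hΦψ : ∀ k, Φ (psi u hL k) = SemidirectProduct.inl k := by
    intro k
    have : Φ.comp (psi u hL) = SemidirectProduct.inl := by
      refine hom_ext_KG _ fun x => ?_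
      induction x using QuotientGroup.induction_on with
      | H a =>
        rw [MonoidHom.comp_apply, psi_tt, map_mul, map_mul, map_inv, hΦi, hΦu, ← map_inv,
          ← SemidirectProduct.inl_aut, t0, al_tt, mul_one]
    exact DFunLike.congr_fun this k
  have hker : ∀ x : ρ.ker, Φ x = SemidirectProduct.inl (Φ x).left := by
    intro x
    ext
    · simp
    · have h1 : ρ x = 1 := x.2
      rw [hρa] at h1
      rw [h1]; simp
  refine ⟨ρ, ii (l := l) u, fun s => ii_gen u s, hρi, hρu, ?_⟩
  refine ⟨{ toFun := fun x => (Φ x).left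
            invFun := fun k => ⟨psi u hL k, by
              rw [MonoidHom.mem_ker, hρa, hΦψ]; rfl⟩
            left_inv := fun x => ?_
            right_inv := fun k => ?_
            map_mul' := fun x y => ?_ }, ?_⟩
  · apply Subtype.ext
    show psi u hL (Φ x).left = x
    have h1 := hΨΦ x
    rw [hker x, hΨ, SemidirectProduct.lift_inl] at h1
    exact h1
  · show (Φ (psi u hL k)).left = k
    rw [hΦψ]; rfl
  · show (Φ ((x : EA l) * y)).left = (Φ x).left * (Φ y).left
    have h1 : (Φ (x : EA l)).right = 1 := by rw [← hρa]; exact x.2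
    rw [map_mul, SemidirectProduct.mul_left, h1, map_one]
    rfl
  · intro a h
    show (Φ (ii (l := l) u a * gen l u * (ii (l := l) u a)⁻¹)).left = _
    rw [← psi_tt u hL a, hΦψ]; rfl

end Pool.Agent.Lib.MP_e6f638_al
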