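import Pool.Agent.Lib.MP_e6f638_al.V.Stmts77
import Pool.Agent.Lib.MP_e6f638_al.I1

/-!
# Module V7: the quotient of an even Artin group by the square of a generator

The group `EA l / u ^ 2` maps to the semidirect product of `EA (hat l u)` with the group of order
two which exchanges the two copies of the generators with half label `2` with `u`.
-/

set_option autoImplicit false

namespace Pool.Agent.Lib.MP_e6f638_al

open Multiplicative Pool.Agent.Results.MP_e6f638_al.EvenArtin

namespace V7

/-- The homomorphism from the group of order two given by an involution. -/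
def hom2 {H : Type} [Group H] (a : H) (h : a * a = 1) : Multiplicative (ZMod 2) →* H where
  toFun z := if z = 1 then 1 else a
  map_one' := if_pos rfl
  map_mul' := by
    intro z w
    have key : ∀ z : Multiplicative (ZMod 2), z = 1 ∨ z = ofAdd 1 := by decide
    have h01 : (ofAdd (1 : ZMod 2)) ≠ 1 := by decide
    have h11 : (ofAdd (1 : ZMod 2)) * ofAdd 1 = 1 := by decide
    rcases key z with rfl | rfl
    · rw [one_mul, if_pos rfl, one_mul]
    · rcases key w with rfl | rfl
      · rw [mul_one, if_pos (rfl : (1 : Multiplicative (ZMod 2)) = 1), mul_one]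
      · rw [h11, if_pos rfl, if_neg h01, h]

theorem hom2_one {H : Type} [Group H] (a : H) (h : a * a = 1) : hom2 a h (ofAdd 1) = a := by
  change (if (ofAdd (1 : ZMod 2)) = 1 then (1 : H) else a) = a
  exact if_neg (by decide)

theorem key2 (z : Multiplicative (ZMod 2)) : z = 1 ∨ z = ofAdd 1 := by
  revert z; decide

section

variable {S : Type} (l : S → S → ℕ) (u : S)

/-- The generators of the group with the two copies. -/
abbrev Idx : Type := {x : S // x ≠ u} ⊕ {x : S // x ≠ u ∧ l u x = 2}

/-- The exchange of the two copies. -/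
def sw : Idx l u → Idx l u
  | .inl s => if h : l u s = 2 then .inr ⟨s, s.2, h⟩ else .inl s
  | .inr s => .inl ⟨s, s.2.1⟩

theorem sw_two (s : {x : S // x ≠ u}) (h : l u s = 2) : sw l u (.inl s) = .inr ⟨s, s.2, h⟩ :=
  dif_pos h

theorem sw_not (s : {x : S // x ≠ u}) (h : ¬ l u s = 2) : sw l u (.inl s) = .inl s := dif_neg h

theorem sw_inr (s : {x : S // x ≠ u ∧ l u x = 2}) : sw l u (.inr s) = .inl ⟨s, s.2.1⟩ := rfl

theorem sw_sw (a : Idx l u) : sw l u (sw l u a) = a := by
  rcases a with s | s
  · by_cases h : l u s = 2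
    · rw [sw_two l u s h, sw_inr]
    · rw [sw_not l u s h, sw_not l u s h]
  · rw [sw_inr, sw_two l u ⟨s, s.2.1⟩ s.2.2]

theorem hat_ll (s t : {x : S // x ≠ u}) : hat l u (.inl s) (.inl t) = l s t := rfl

theorem hat_rr (s t : {x : S // x ≠ u ∧ l u x = 2}) : hat l u (.inr s) (.inr t) = l s t := rfl

theorem hat_lr_one (s : {x : S // x ≠ u}) (t : {x : S // x ≠ u ∧ l u x = 2}) (h : ¬ l u s = 2) :
    hat l u (.inl s) (.inr t) = l s t := if_neg h

theorem hat_rl_one (s : {x : S // x ≠ u ∧ l u x = 2}) (t : {x : S // x ≠ u}) (h : ¬ l u t = 2) :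
    hat l u (.inr s) (.inl t) = l s t := if_neg h

theorem hat_lr_eq (s : {x : S // x ≠ u}) (t : {x : S // x ≠ u ∧ l u x = 2}) (h : l u s = 2)
    (hst : (s : S) = t) : hat l u (.inl s) (.inr t) = 1 := (if_pos h).trans (if_pos hst)

theorem hat_lr_ne (s : {x : S // x ≠ u}) (t : {x : S // x ≠ u ∧ l u x = 2}) (h : l u s = 2)
    (hst : (s : S) ≠ t) : hat l u (.inl s) (.inr t) = 0 := (if_pos h).trans (if_neg hst)

theorem hat_rl_eq (s : {x : S // x ≠ u ∧ l u x = 2}) (t : {x : S // x ≠ u}) (h : l u t = 2)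
    (hst : (s : S) = t) : hat l u (.inr s) (.inl t) = 1 := (if_pos h).trans (if_pos hst)

theorem hat_rl_ne (s : {x : S // x ≠ u ∧ l u x = 2}) (t : {x : S // x ≠ u}) (h : l u t = 2)
    (hst : (s : S) ≠ t) : hat l u (.inr s) (.inl t) = 0 := (if_pos h).trans (if_neg hst)

theorem hat_sw (a b : Idx l u) : hat l u (sw l u a) (sw l u b) = hat l u a b := by
  rcases a with s | s <;> rcases b with t | t
  · by_cases hs : l u s = 2
    · rw [sw_two l u s hs]
      by_cases ht : l u t = 2
      · rw [sw_two l u t ht, hat_rr, hat_ll]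
      · rw [sw_not l u t ht, hat_rl_one l u _ _ ht, hat_ll]
    · rw [sw_not l u s hs]
      by_cases ht : l u t = 2
      · rw [sw_two l u t ht, hat_lr_one l u _ _ hs, hat_ll]
      · rw [sw_not l u t ht]
  · rw [sw_inr]
    by_cases hs : l u s = 2
    · rw [sw_two l u s hs]
      by_cases hst : (s : S) = t
      · rw [hat_rl_eq l u _ _ t.2.2 hst, hat_lr_eq l u _ _ hs hst]
      · rw [hat_rl_ne l u _ _ t.2.2 hst, hat_lr_ne l u _ _ hs hst]
    · rw [sw_not l u s hs, hat_ll, hat_lr_one l u _ _ hs]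
  · rw [sw_inr]
    by_cases ht : l u t = 2
    · rw [sw_two l u t ht]
      by_cases hst : (s : S) = t
      · rw [hat_lr_eq l u _ _ s.2.2 hst, hat_rl_eq l u _ _ ht hst]
      · rw [hat_lr_ne l u _ _ s.2.2 hst, hat_rl_ne l u _ _ ht hst]
    · rw [sw_not l u t ht, hat_ll, hat_rl_one l u _ _ ht]
  · rw [sw_inr, sw_inr, hat_ll, hat_rr]

/-- The exchange as an endomorphism. -/
noncomputable def sg : EA (hat l u) →* EA (hat l u) :=
  liftEA (hat l u) (fun a => gen (hat l u) (sw l u a)) (fun a b => by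
    have h := gen_rel (hat l u) (sw l u a) (sw l u b)
    rwa [hat_sw l u a b] at h)

theorem sg_gen (a : Idx l u) : sg l u (gen (hat l u) a) = gen (hat l u) (sw l u a) :=
  liftEA_gen _ _ _ _

theorem sg_sg : (sg l u).comp (sg l u) = MonoidHom.id _ :=
  hom_ext_EA _ fun a => by
    rw [MonoidHom.comp_apply, sg_gen, sg_gen, sw_sw, MonoidHom.id_apply]

/-- The exchange as an automorphism. -/
noncomputable def sgE : MulAut (EA (hat l u)) :=
  MonoidHom.toMulEquiv (sg l u) (sg l u) (sg_sg l u) (sg_sg l u)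

theorem sgE_apply (x : EA (hat l u)) : sgE l u x = sg l u x := rfl

theorem sgE_mul : sgE l u * sgE l u = 1 := by
  ext x
  exact DFunLike.congr_fun (sg_sg l u) x

/-- The action of the group of order two. -/
noncomputable def ph : Multiplicative (ZMod 2) →* MulAut (EA (hat l u)) :=
  hom2 (sgE l u) (sgE_mul l u)

theorem ph_one : ph l u (ofAdd 1) = sgE l u := hom2_one _ _

/-- The semidirect product. -/
abbrev QQ : Type := EA (hat l u) ⋊[ph l u] Multiplicative (ZMod 2)

/-- The element of order two. -/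
noncomputable def τ : QQ l u := SemidirectProduct.inr (ofAdd 1)

theorem τ_mul_self : τ l u * τ l u = 1 := by
  rw [τ, ← map_mul, (by decide : (ofAdd (1 : ZMod 2)) * ofAdd 1 = 1), map_one]

theorem τ_inl (x : EA (hat l u)) :
    τ l u * SemidirectProduct.inl x = SemidirectProduct.inl (sg l u x) * τ l u := by
  have h := SemidirectProduct.inl_aut (φ := ph l u) (ofAdd (1 : ZMod 2)) x
  rw [ph_one, sgE_apply] at h
  rw [h, τ, map_inv, inv_mul_cancel_right]

/-- The first copies. -/
noncomputable def ga (s : {x : S // x ≠ u}) : QQ l u :=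
  SemidirectProduct.inl (gen (hat l u) (.inl s))

theorem rel_ga (hl : Lab l) (t : {x : S // x ≠ u}) :
    (τ l u * ga l u t) ^ l u t = (ga l u t * τ l u) ^ l u t := by
  rcases hl.2 u t (fun h => t.2 h.symm) with h | h
  · rw [h, pow_one, pow_one, ga, τ_inl, sg_gen, sw_not l u t (by omega)]
  · have hc := gen_rel (hat l u) (.inl t) (.inr ⟨t, t.2, h⟩)
    rw [hat_lr_eq l u _ _ h rfl, pow_one, pow_one] at hc
    have e1 : τ l u * ga l u t = SemidirectProduct.inl (gen (hat l u) (.inr ⟨t, t.2, h⟩)) *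
        τ l u := by rw [ga, τ_inl, sg_gen, sw_two l u t h]
    have e2 : (τ l u * ga l u t) ^ 2 = SemidirectProduct.inl (gen (hat l u) (.inr ⟨t, t.2, h⟩)) *
        ga l u t := by
      rw [pow_two]
      nth_rewrite 1 [e1]
      rw [mul_assoc, ← mul_assoc (τ l u) (τ l u), τ_mul_self, one_mul]
    have e3 : (ga l u t * τ l u) ^ 2 = ga l u t *
        SemidirectProduct.inl (gen (hat l u) (.inr ⟨t, t.2, h⟩)) := by
      rw [pow_two, mul_assoc, ← mul_assoc (τ l u) (ga l u t), e1, mul_assoc, τ_mul_self, mul_one]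
    rw [h, e2, e3, ga, ← map_mul, ← map_mul, hc]

open Classical in
/-- The map to the semidirect product. -/
noncomputable def La (hl : Lab l) : EA l →* QQ l u :=
  liftEA l (fun s => if h : s = u then τ l u else ga l u ⟨s, h⟩) (by
    intro s t
    by_cases hs : s = u
    · by_cases ht : t = u
      · simp only [dif_pos hs, dif_pos ht]
      · simp only [dif_pos hs, dif_neg ht]
        rw [hs]
        exact rel_ga l u hl ⟨t, ht⟩
    · by_cases ht : t = u
      · simp only [dif_pos ht, dif_neg hs]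
        rw [ht, hl.1 s u]
        exact (rel_ga l u hl ⟨s, hs⟩).symm
      · simp only [dif_neg hs, dif_neg ht]
        have h := gen_rel (hat l u) (.inl ⟨s, hs⟩) (.inl ⟨t, ht⟩)
        rw [hat_ll] at h
        rw [ga, ga, ← map_mul, ← map_mul, ← map_pow, ← map_pow, h])

theorem La_u (hl : Lab l) : La l u hl (gen l u) = τ l u := by
  rw [La, liftEA_gen, dif_pos rfl]

theorem La_s (hl : Lab l) (s : {x : S // x ≠ u}) : La l u hl (gen l s) = ga l u s := by
  rw [La, liftEA_gen, dif_neg s.2]

/-- The quotient by the square. -/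
abbrev Q0 : Type := EA l ⧸ Subgroup.normalClosure {gen l u ^ 2}

/-- The image of an element. -/
def mk0 : EA l →* Q0 l u := QuotientGroup.mk' _

theorem uu : mk0 l u (gen l u) * mk0 l u (gen l u) = 1 := by
  rw [← map_mul, ← pow_two]
  exact (QuotientGroup.eq_one_iff _).2 (Subgroup.subset_normalClosure rfl)

/-- The images of the generators. -/
def fb : Idx l u → Q0 l u
  | .inl s => mk0 l u (gen l s)
  | .inr s => mk0 l u (gen l u) * mk0 l u (gen l s) * (mk0 l u (gen l u))⁻¹

theorem fb_sw (hl : Lab l) (a : Idx l u) :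
    fb l u (sw l u a) = mk0 l u (gen l u) * fb l u a * (mk0 l u (gen l u))⁻¹ := by
  rcases a with s | s
  · rcases hl.2 u s (fun h => s.2 h.symm) with h | h
    · rw [sw_not l u s (by omega)]
      have hr := gen_rel l u (s : S)
      rw [h, pow_one, pow_one] at hr
      change mk0 l u (gen l s) = _ * mk0 l u (gen l s) * _
      rw [← map_mul, hr, map_mul, mul_inv_cancel_right]
    · rw [sw_two l u s h]
      rfl
  · rw [sw_inr]
    change mk0 l u (gen l s) = mk0 l u (gen l u) *
      (mk0 l u (gen l u) * mk0 l u (gen l s) * (mk0 l u (gen l u))⁻¹) * (mk0 l u (gen l u))⁻¹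
    have h := uu l u
    have h' : (mk0 l u (gen l u))⁻¹ = mk0 l u (gen l u) := (eq_inv_of_mul_eq_one_left h).symm
    rw [h', ← mul_assoc, ← mul_assoc, h, one_mul, mul_assoc, h, mul_one]

theorem conj_pow {G : Type} [Group G] {g a b : G} {n : ℕ} (h : (a * b) ^ n = (b * a) ^ n) :
    ((g * a * g⁻¹) * (g * b * g⁻¹)) ^ n = ((g * b * g⁻¹) * (g * a * g⁻¹)) ^ n := by
  have e1 : (g * a * g⁻¹) * (g * b * g⁻¹) = g * (a * b) * g⁻¹ := by group
  have e2 : (g * b * g⁻¹) * (g * a * g⁻¹) = g * (b * a) * g⁻¹ := by group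
  rw [e1, e2, ← MulAut.conj_apply, ← MulAut.conj_apply, ← map_pow, ← map_pow, h]

theorem sq_comm {G : Type} [Group G] {a b : G} (h : (a * b) ^ 2 = (b * a) ^ 2) (h' : a⁻¹ = a) :
    b * (a * b * a⁻¹) = (a * b * a⁻¹) * b := by
  rw [pow_two, pow_two] at h
  rw [h']
  simp only [mul_assoc] at h ⊢
  exact h.symm

theorem mk_rel (s t : S) : (mk0 l u (gen l s) * mk0 l u (gen l t)) ^ l s t =
    (mk0 l u (gen l t) * mk0 l u (gen l s)) ^ l s t := by
  rw [← map_mul, ← map_mul, ← map_pow, ← map_pow, gen_rel]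

theorem fb_ll (s t : {x : S // x ≠ u}) : (fb l u (.inl s) * fb l u (.inl t)) ^ l s t =
    (fb l u (.inl t) * fb l u (.inl s)) ^ l s t := mk_rel l u s t

theorem fb_lr (hl : Lab l) (s : {x : S // x ≠ u}) (t : {x : S // x ≠ u ∧ l u x = 2}) :
    (fb l u (.inl s) * fb l u (.inr t)) ^ hat l u (.inl s) (.inr t) =
      (fb l u (.inr t) * fb l u (.inl s)) ^ hat l u (.inl s) (.inr t) := by
  by_cases hs : l u s = 2
  · by_cases hst : (s : S) = t
    · rw [hat_lr_eq l u _ _ hs hst, pow_one, pow_one]
      have h := mk_rel l u u s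
      rw [hs] at h
      have h' : (mk0 l u (gen l u))⁻¹ = mk0 l u (gen l u) :=
        (eq_inv_of_mul_eq_one_left (uu l u)).symm
      have e : fb l u (.inr t) = mk0 l u (gen l u) * mk0 l u (gen l s) *
          (mk0 l u (gen l u))⁻¹ := by rw [hst]; rfl
      rw [e]
      exact sq_comm h h'
    · rw [hat_lr_ne l u _ _ hs hst, pow_zero, pow_zero]
  · rw [hat_lr_one l u _ _ hs]
    have e := fb_sw l u hl (.inl s)
    rw [sw_not l u s hs] at e
    have h := conj_pow (g := mk0 l u (gen l u)) (mk_rel l u (s : S) (t : S))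
    have e' : fb l u (.inl s) = mk0 l u (gen l u) * mk0 l u (gen l s) * (mk0 l u (gen l u))⁻¹ := e
    rw [e']
    exact h

theorem fb_rel (hl : Lab l) (a b : Idx l u) : (fb l u a * fb l u b) ^ hat l u a b =
    (fb l u b * fb l u a) ^ hat l u a b := by
  rcases a with s | s <;> rcases b with t | t
  · exact fb_ll l u s t
  · exact fb_lr l u hl s t
  · have h : hat l u (.inr s) (.inl t) = hat l u (.inl t) (.inr s) := by
      by_cases ht : l u t = 2
      · by_cases hst : (s : S) = t
        · rw [hat_rl_eq l u _ _ ht hst, hat_lr_eq l u _ _ ht hst.symm]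
        · rw [hat_rl_ne l u _ _ ht hst, hat_lr_ne l u _ _ ht (Ne.symm hst)]
      · rw [hat_rl_one l u _ _ ht, hat_lr_one l u _ _ ht, hl.1]
    rw [h]
    exact (fb_lr l u hl t s).symm
  · exact conj_pow (mk_rel l u (s : S) (t : S))

/-- The map from the group with the two copies. -/
noncomputable def Fb (hl : Lab l) : EA (hat l u) →* Q0 l u :=
  liftEA (hat l u) (fb l u) (fb_rel l u hl)

/-- The map from the semidirect product. -/
noncomputable def Bb (hl : Lab l) : QQ l u →* Q0 l u :=
  SemidirectProduct.lift (Fb l u hl) (hom2 (mk0 l u (gen l u)) (uu l u)) (by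
    intro z
    rcases key2 z with rfl | rfl
    · refine MonoidHom.ext fun x => ?_
      rw [map_one, map_one, map_one]
      rfl
    · rw [hom2_one]
      refine hom_ext_EA _ fun a => ?_
      change Fb l u hl (ph l u (ofAdd 1) (gen (hat l u) a)) =
        mk0 l u (gen l u) * Fb l u hl (gen (hat l u) a) * (mk0 l u (gen l u))⁻¹
      rw [ph_one, sgE_apply, sg_gen, Fb, liftEA_gen, liftEA_gen, fb_sw l u hl])

theorem Bb_La (hl : Lab l) (x : EA l) : Bb l u hl (La l u hl x) = mk0 l u x := by
  have h : (Bb l u hl).comp (La l u hl) = mk0 l u := by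
    refine hom_ext_EA _ fun s => ?_
    rw [MonoidHom.comp_apply]
    by_cases hs : s = u
    · subst hs
      rw [La_u, Bb, τ, SemidirectProduct.lift_inr, hom2_one]
    · rw [La_s l u hl ⟨s, hs⟩, Bb, ga, SemidirectProduct.lift_inl, Fb, liftEA_gen]
      rfl
  exact DFunLike.congr_fun h x

end

end V7

open V7 in
/-- Module V7. The quotient by the square of `u`. -/
theorem stV7 : StV7 := by
  intro S l hl u
  refine ⟨QQ l u, inferInstance, La l u hl, SemidirectProduct.rightHom,
    { toFun := fun x => x.1.left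
      map_one' := rfl
      map_mul' := ?_ }, ?_, ?_⟩
  · intro x y
    have hx : x.1.right = 1 := x.2
    change x.1.left * ph l u x.1.right y.1.left = _
    rw [hx, map_one]
    rfl
  · intro x y h
    have hx : x.1.right = 1 := x.2
    have hy : y.1.right = 1 := y.2
    exact Subtype.ext (SemidirectProduct.ext h (hx.trans hy.symm))
  · intro x hx
    have h := Bb_La l u hl x
    rw [MonoidHom.mem_ker.1 hx, map_one] at h
    exact (QuotientGroup.eq_one_iff x).1 h.symm

end Pool.Agent.Lib.MP_e6f638_al
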