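import Pool.Agent.Lib.MP_e6f638_al.V.Stmts77

/-!
# Even Artin groups with half labels `1` and `2`: the induction on the number of generators
-/

set_option autoImplicit false

namespace Pool.Agent.Lib.MP_e6f638_al

open Multiplicative

namespace V8

theorem hat_symm {S : Type} {l : S → S → ℕ} (hl : ∀ s t, l s t = l t s) (u : S)
    (a b : {x : S // x ≠ u} ⊕ {x : S // x ≠ u ∧ l u x = 2}) : hat l u a b = hat l u b a := by
  rcases a with s | s <;> rcases b with t | t <;> simp only [hat]
  · exact hl _ _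
  · split_ifs with h1 h2 h3 h3
    · rfl
    · exact absurd h2.symm h3
    · exact absurd h3.symm h2
    · rfl
    · exact hl _ _
  · split_ifs with h1 h2 h3 h3
    · rfl
    · exact absurd h2.symm h3
    · exact absurd h3.symm h2
    · rfl
    · exact hl _ _
  · exact hl _ _

/-- Sets of generators of the quotient without infinite labels are small. -/
theorem card_le {S : Type} [Finite S] (l : S → S → ℕ) (u y z : S) (hyz : y ≠ z)
    (hyu : y ≠ u) (hzu : z ≠ u) (hy : l u y = 2) (hz : l u z = 2)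
    (X : Set ({x : S // x ≠ u} ⊕ {x : S // x ≠ u ∧ l u x = 2}))
    (hX : Lab (fun s t : X => hat l u s t)) :
    Nat.card X ≤ Nat.card {x : S // x ≠ u} := by
  have key : ∀ (s : {x : S // x ≠ u}) (t : {x : S // x ≠ u ∧ l u x = 2}),
      Sum.inl s ∈ X → Sum.inr t ∈ X → l u s = 2 → (s : S) = t := by
    intro s t hs ht h
    by_contra hne
    have h1 := hX.2 ⟨_, hs⟩ ⟨_, ht⟩ (by
      intro h2
      exact Sum.inl_ne_inr (congrArg Subtype.val h2))
    simp only [hat, if_pos h, if_neg hne] at h1
    omega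
  by_cases hc : ∃ (s : {x : S // x ≠ u}) (t : {x : S // x ≠ u ∧ l u x = 2}),
      Sum.inl s ∈ X ∧ Sum.inr t ∈ X ∧ l u s = 2
  · obtain ⟨s, t, hs, ht, hs2⟩ := hc
    have hst : (s : S) = t := key s t hs ht hs2
    -- all second copies in `X` are equal to `t`
    have h1 : ∀ t', Sum.inr t' ∈ X → t' = t := by
      intro t' ht'
      have h2 := key s t' hs ht' hs2
      exact Subtype.ext (h2.symm.trans hst)
    obtain ⟨r, hru, hr2, hrs⟩ : ∃ r : S, r ≠ u ∧ l u r = 2 ∧ r ≠ s := by
      by_cases h : (s : S) = y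
      · exact ⟨z, hzu, hz, fun h' => hyz (h.symm.trans h'.symm)⟩
      · exact ⟨y, hyu, hy, fun h' => h h'.symm⟩
    have h3 : ∀ s' : {x : S // x ≠ u}, Sum.inl s' ∈ X → (s' : S) ≠ r := by
      intro s' hs' h
      have h4 := key s' t hs' ht (by rw [h]; exact hr2)
      exact hrs (h.symm.trans (h4.trans hst.symm))
    refine Nat.card_le_card_of_injective
      (fun a : X => match a.1 with
        | Sum.inl s' => s'
        | Sum.inr _ => (⟨r, hru⟩ : {x : S // x ≠ u})) ?_
    rintro ⟨a | a, ha⟩ ⟨b | b, hb⟩ hab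
    · have : a = b := hab
      subst this
      rfl
    · exact absurd (congrArg Subtype.val (show a = ⟨r, hru⟩ from hab)) (h3 a ha)
    · exact absurd (congrArg Subtype.val (show b = ⟨r, hru⟩ from (Eq.symm hab))) (h3 b hb)
    · have h5 := h1 a ha
      have h6 := h1 b hb
      subst h5
      subst h6
      rfl
  · refine Nat.card_le_card_of_injective
      (fun a : X => match a.1 with
        | Sum.inl s' => s'
        | Sum.inr t => (⟨t, t.2.1⟩ : {x : S // x ≠ u})) ?_
    rintro ⟨a | a, ha⟩ ⟨b | b, hb⟩ hab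
    · have : a = b := hab
      subst this
      rfl
    · have h5 : a = ⟨b, b.2.1⟩ := hab
      exact absurd ⟨a, b, ha, hb, by rw [h5]; exact b.2.2⟩ hc
    · have h5 : b = ⟨a, a.2.1⟩ := Eq.symm hab
      exact absurd ⟨b, a, hb, ha, by rw [h5]; exact a.2.2⟩ hc
    · have h5 : (⟨a, a.2.1⟩ : {x : S // x ≠ u}) = ⟨b, b.2.1⟩ := hab
      have h6 : a = b := Subtype.ext (Subtype.mk.inj h5)
      subst h6
      rfl

end V8

open V8 in
/-- Module V8. -/
theorem stV8 (hA : StA) (hJC1 : StJC1) (hI4 : StI4) (h6 : StV6) (h7 : StV7) (h8a : StV8a)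
    (h8b : StV8b) : StV8 := by
  have key : ∀ (n : ℕ) (S : Type) [Finite S] (l : S → S → ℕ), Nat.card S ≤ n → Lab l →
      STA (EA l) := by
    intro n
    induction n with
    | zero =>
      intro S _ l hS hl
      refine ⟨_, hI4 S l hl.1 ?_⟩
      intro s t v
      exact absurd hS (by
        have : Nonempty S := ⟨s⟩
        have := Finite.card_pos (α := S)
        omega)
    | succ n ih =>
      intro S _ l hS hl
      by_cases hc : ∃ u y z : S, y ≠ z ∧ y ≠ u ∧ z ≠ u ∧ l u y = 2 ∧ l u z = 2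
      · obtain ⟨u, y, z, hyz, hyu, hzu, hy, hz⟩ := hc
        obtain ⟨Q, hQ, Λ, χ, η, hη, hΛ⟩ := h7 S l hl u
        obtain ⟨W, F, hF⟩ := (h6 S l hl).2 u
        refine h8a (EA l) Q Λ ⟨W, F.comp (Subgroup.inclusion hΛ),
          hF.comp (Subgroup.inclusion_injective hΛ)⟩ ?_
        have hhat : STA (EA (hat l u)) := by
          refine h8b (fun G [Group G] => STA G) hJC1 _ _ (hat_symm hl.1 u) ?_
          intro X hX
          refine ih X _ ?_ hX
          have h1 := card_le l u y z hyz hyu hzu hy hz X hX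
          have h2 : Nat.card {x : S // x ≠ u} < Nat.card S := by
            refine Finite.card_subtype_lt (x := u) ?_
            simp
          omega
        obtain ⟨d, hd⟩ := hhat
        exact ⟨d + 1, hA.2.2.1 Q (Multiplicative (ZMod 2)) χ d (hA.1 _ _ η d hη hd)⟩
      · refine ⟨_, hI4 S l hl.1 ?_⟩
        rintro s t v hst hsv htv ⟨h1, h2, -⟩
        exact hc ⟨s, t, v, htv, hst.symm, hsv.symm, h1, h2⟩
  intro S _ l hl
  exact key _ S l le_rfl hl

end Pool.Agent.Lib.MP_e6f638_al
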