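import Pool.Agent.Lib.MP_e6f638_al.V.Stmts77
import Pool.Agent.Lib.MP_e6f638_al.A

/-!
# All even Artin groups, module V8a: extensions by groups which embed in free groups

A subgroup of a free group is free; without free subgroups of rank two it is commutative.
-/

set_option autoImplicit false

namespace Pool.Agent.Lib.MP_e6f638_al

/-- The free group of a set with at most one element is commutative. -/
theorem free_comm {X : Type} (hX : Subsingleton X) (a b : FreeGroup X) : a * b = b * a := by
  by_cases hem : IsEmpty X
  · exact Subsingleton.elim _ _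
  · rw [not_isEmpty_iff] at hem
    obtain ⟨x⟩ := hem
    have h1 : ∀ w : FreeGroup X, ∃ m : ℤ, FreeGroup.of x ^ m = w := by
      intro w
      have h2 : w ∈ Subgroup.closure (Set.range (FreeGroup.of : X → FreeGroup X)) := by
        rw [FreeGroup.closure_range_of]
        exact Subgroup.mem_top w
      have h3 : Set.range (FreeGroup.of : X → FreeGroup X) ⊆ {FreeGroup.of x} := by
        rintro _ ⟨y, rfl⟩
        rw [Set.mem_singleton_iff, hX.elim y x]
      exact Subgroup.mem_closure_singleton.1 (Subgroup.closure_mono h3 h2)
    obtain ⟨m, rfl⟩ := h1 a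
    obtain ⟨n, rfl⟩ := h1 b
    rw [← zpow_add, ← zpow_add, add_comm]

/-- A subgroup of a free group without free subgroups of rank two is commutative. -/
theorem ta_free (W : Type) : TA 1 (FreeGroup W) := by
  intro H hH
  have hfree : IsFreeGroup H := subgroupIsFreeOfIsFree H
  have hsub : Subsingleton (IsFreeGroup.Generators H) := by
    by_contra hne
    rw [not_subsingleton_iff_nontrivial] at hne
    obtain ⟨x, y, hxy⟩ := hne
    refine hH ?_
    let c : Fin 2 → IsFreeGroup.Generators H := fun i => if i = 0 then x else y
    have hc : Function.Injective c := by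
      intro i j hij
      fin_cases i <;> fin_cases j
      · rfl
      · exact absurd hij hxy
      · exact absurd hij.symm hxy
      · rfl
    refine ⟨H.subtype.comp ((IsFreeGroup.toFreeGroup H).symm.toMonoidHom.comp (FreeGroup.map c)),
      ?_, ?_⟩
    · exact Subtype.val_injective.comp ((IsFreeGroup.toFreeGroup H).symm.injective.comp
        (FreeGroup.map_injective hc))
    · rintro _ ⟨w, rfl⟩
      exact Subtype.property _
  rw [derivedSeries_one, commutator_eq_bot_iff_center_eq_top, Subgroup.eq_top_iff']
  intro x
  rw [Subgroup.mem_center_iff]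
  intro y
  apply (IsFreeGroup.toFreeGroup H).injective
  rw [map_mul, map_mul]
  exact free_comm hsub _ _

/-- Module V8a. -/
theorem stV8a : StV8a := by
  rintro G Q _ _ f ⟨W, F, hF⟩ ⟨d, hd⟩
  exact ⟨d + 1, TA.ext f (TA.of_inj F hF (ta_free W)) hd⟩

end Pool.Agent.Lib.MP_e6f638_al
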