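import Pool.Agent.Lib.MP_e6f638_al.V.Stmts77

/-!
# Reduction of even Artin groups to half labels `1` and `2`

Module V8b.
-/

set_option autoImplicit false

namespace Pool.Agent.Lib.MP_e6f638_al

open Multiplicative Pool.Agent.Results.MP_e6f638_al.EvenArtin

namespace V8b

variable {S : Type}

/-- The map to the group with half labels. -/
theorem exists_to (M : CoxeterMatrix S) (l : S → S → ℕ)
    (h : ∀ s t, s ≠ t → M s t = 2 * l s t) :
    ∃ F : ArtinGroup M →* EA l, ∀ s, F (ag M s) = gen l s := by
  have key : ∀ r ∈ artinRels M, FreeGroup.lift (gen l) r = 1 := by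
    rintro r ⟨s, t, rfl⟩
    rw [map_mul, map_inv, mul_inv_eq_one, map_alt, map_alt, FreeGroup.lift_apply_of,
      FreeGroup.lift_apply_of]
    by_cases hst : s = t
    · rw [hst]
    · rw [h s t hst, alt_two_mul, alt_two_mul]
      exact gen_rel l s t
  exact ⟨PresentedGroup.toGroup key, fun s => PresentedGroup.toGroup.of key⟩

/-- The map of the group with half labels. -/
theorem exists_of (M : CoxeterMatrix S) (l : S → S → ℕ)
    (h : ∀ s t, s ≠ t → M s t = 2 * l s t) :
    ∃ F : EA l →* ArtinGroup M, ∀ s, F (gen l s) = ag M s := by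
  have key : ∀ s t, (ag M s * ag M t) ^ l s t = (ag M t * ag M s) ^ l s t := by
    intro s t
    by_cases hst : s = t
    · rw [hst]
    · have h3 : (PresentedGroup.mk (artinRels M)) (alt (FreeGroup.of s) (FreeGroup.of t) (M s t) *
          (alt (FreeGroup.of t) (FreeGroup.of s) (M s t))⁻¹) = 1 :=
        PresentedGroup.one_of_mem ⟨s, t, rfl⟩
      rw [map_mul, map_inv, mul_inv_eq_one, map_alt, map_alt, h s t hst, alt_two_mul,
        alt_two_mul] at h3
      exact h3
  exact ⟨liftEA l (ag M) key, fun s => liftEA_gen _ _ _ _⟩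

theorem to_inj (M : CoxeterMatrix S) (l : S → S → ℕ)
    (h : ∀ s t, s ≠ t → M s t = 2 * l s t) :
    ∃ F : ArtinGroup M →* EA l, Function.Injective F := by
  obtain ⟨F, hF⟩ := exists_to M l h
  obtain ⟨G, hG⟩ := exists_of M l h
  refine ⟨F, Function.LeftInverse.injective (g := G) fun x => ?_⟩
  have h1 : G.comp F = MonoidHom.id _ := by
    refine PresentedGroup.ext fun s => ?_
    have h2 : F (PresentedGroup.of s) = gen l s := hF s
    rw [MonoidHom.comp_apply, h2, hG]
    rfl
  exact DFunLike.congr_fun h1 x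

theorem of_inj (M : CoxeterMatrix S) (l : S → S → ℕ)
    (h : ∀ s t, s ≠ t → M s t = 2 * l s t) :
    ∃ F : EA l →* ArtinGroup M, Function.Injective F := by
  obtain ⟨F, hF⟩ := exists_to M l h
  obtain ⟨G, hG⟩ := exists_of M l h
  refine ⟨G, Function.LeftInverse.injective (g := F) fun x => ?_⟩
  have h1 : F.comp G = MonoidHom.id _ := by
    refine PresentedGroup.ext fun s => ?_
    have h2 : G (PresentedGroup.of s) = ag M s := hG s
    rw [MonoidHom.comp_apply, h2, hF]
    rfl
  exact DFunLike.congr_fun h1 x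

/-- The Coxeter matrix of the half labels. -/
noncomputable def cox (l : S → S → ℕ) (hl : ∀ s t, l s t = l t s) : CoxeterMatrix S := by
  classical
  exact {
    M := fun s t => if s = t then 1 else 2 * l s t
    isSymm := by
      ext s t
      show (if t = s then 1 else 2 * l t s) = if s = t then 1 else 2 * l s t
      by_cases h : s = t
      · subst h
        rfl
      · rw [if_neg h, if_neg (fun h' => h h'.symm), hl]
    diagonal := fun s => if_pos rfl
    off_diagonal := fun s t h => by
      show (if s = t then 1 else 2 * l s t) ≠ 1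
      rw [if_neg h]
      omega }

theorem cox_apply (l : S → S → ℕ) (hl : ∀ s t, l s t = l t s) (s t : S) (h : s ≠ t) :
    cox l hl s t = 2 * l s t := by
  classical
  show (if s = t then 1 else 2 * l s t) = 2 * l s t
  rw [if_neg h]

theorem oddConn_eq (l : S → S → ℕ) (hl : ∀ s t, l s t = l t s) {X : Set S} {s t : S}
    (h : OddConn (cox l hl) X s t) : s = t := by
  induction h with
  | refl => rfl
  | @tail b c _ hbc ih =>
    rw [ih]
    by_contra hne
    have h1 := hbc.2.2
    rw [cox_apply l hl b c hne] at h1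
    exact (Nat.not_odd_iff_even.2 (even_two_mul _)) h1

end V8b

open V8b in
/-- Module V8b. -/
theorem stV8b (hJ : StJR2) : StV8b := by
  intro Pr hP S _ l hl hX
  obtain ⟨F, hF⟩ := of_inj (cox l hl) l (cox_apply l hl)
  refine hP.inj _ _ F hF (hJ Pr hP S (cox l hl) fun X hC hT => ?_)
  obtain ⟨F', hF'⟩ := to_inj (res (cox l hl) X) (fun s t : X => l s t) (fun s t hst =>
    cox_apply l hl s t fun h => hst (Subtype.ext h))
  refine hP.inj _ _ F' hF' (hX X ⟨fun s t => hl s t, fun s t hst => ?_⟩)
  have hne : (s : S) ≠ t := fun h => hst (Subtype.ext h)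
  obtain ⟨s', -, t', -, h1, h2, h3⟩ := hT s s.2 t t.2 fun h => hne (oddConn_eq l hl h)
  rw [← oddConn_eq l hl h1, ← oddConn_eq l hl h2, cox_apply l hl s t hne] at h3
  show l s t = 1 ∨ l s t = 2
  omega

end Pool.Agent.Lib.MP_e6f638_al
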