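import Pool.Agent.Lib.MP_e6f638_al.Main
import Pool.Agent.Lib.MP_e6f638_al.J.Main
import Pool.Agent.Lib.MP_e6f638_al.V.V3Fin_40
import Pool.Agent.Lib.MP_e6f638_al.V.V3p_38
import Pool.Agent.Lib.MP_e6f638_al.V.V4_53
import Pool.Agent.Lib.MP_e6f638_al.V.V5_53
import Pool.Agent.Lib.MP_e6f638_al.V.V6_77
import Pool.Agent.Lib.MP_e6f638_al.V.V7_54
import Pool.Agent.Lib.MP_e6f638_al.V.V8_22
import Pool.Agent.Lib.MP_e6f638_al.V.V8a_95
import Pool.Agent.Lib.MP_e6f638_al.V.V8b_21
import Pool.Agent.Lib.MP_e6f638_al.V.V9_16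

/-!
# All even Artin groups: assembly
-/

set_option autoImplicit false

namespace Pool.Agent.Lib.MP_e6f638_al

/-- The normal closure of a square is free; conjugates. -/
theorem stV6_all : StV6 := stV6 (stV3' stV3) stV4 stV5

/-- Half labels `1` and `2`. -/
theorem stV8_all : StV8 := stV8 stA stJC1 stI4_all stV6_all stV7 stV8a (stV8b stJR2_all)

/-- All even Artin groups. -/
theorem stV9_all : StV9 := stV9 stA stJC1 (stV8b stJR2_all) stV8_all

end Pool.Agent.Lib.MP_e6f638_al
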