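import Pool.Agent.Lib.MP_e6f638_al.J.Stmts2

/-!
# All even Artin groups: statements of the modules

Points and lines; the group `KG` with a generator for every point, and with the relations
`x_i x_(i+1) = x_j x_(j+1)` for every line `(x_i)`. The normal closure of the squares of the
generators embeds in a free group.
-/

set_option autoImplicit false

namespace Pool.Agent.Lib.MP_e6f638_al

open Multiplicative Pool.Agent.Results.MP_e6f638_al.EvenArtin

/-! ## The abstract part -/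

/-- Points and lines with unique labels. Every line is a sequence of distinct points; two different
points are on at most one line; there are no triangles. -/
structure Geo (P : Type) where
  L : Type
  pt : L → ℤ → P
  inj : ∀ l, Function.Injective (pt l)
  dig : ∀ (l l' : L) (m n m' n' : ℤ), m ≠ n → pt l m = pt l' m' → pt l n = pt l' n' → l = l'
  tri : ∀ (l₁ l₂ l₃ : L) (a₁ b₁ a₂ b₂ a₃ b₃ : ℤ), a₁ ≠ b₁ → a₂ ≠ b₂ → a₃ ≠ b₃ →
    pt l₁ b₁ = pt l₂ a₂ → pt l₂ b₂ = pt l₃ a₃ → pt l₃ b₃ = pt l₁ a₁ → l₁ = l₂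

/-- The same with several labels for a line: labels up to a shift. -/
structure IsGeo {P L : Type} (pt : L → ℤ → P) : Prop where
  inj : ∀ l, Function.Injective (pt l)
  dig : ∀ (l l' : L) (m n m' n' : ℤ), m ≠ n → pt l m = pt l' m' → pt l n = pt l' n' →
    ∃ c, ∀ i, pt l' i = pt l (i + c)
  tri : ∀ (l₁ l₂ l₃ : L) (a₁ b₁ a₂ b₂ a₃ b₃ : ℤ), a₁ ≠ b₁ → a₂ ≠ b₂ → a₃ ≠ b₃ →
    pt l₁ b₁ = pt l₂ a₂ → pt l₂ b₂ = pt l₃ a₃ → pt l₃ b₃ = pt l₁ a₁ →
    (∃ c, ∀ i, pt l₂ i = pt l₁ (i + c)) ∨ (∃ c, ∀ i, pt l₃ i = pt l₂ (i + c)) ∨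
      ∃ c, ∀ i, pt l₁ i = pt l₃ (i + c)

/-- The relators `x_i x_(i+1) = x_j x_(j+1)`. -/
def lrels {P L : Type} (pt : L → ℤ → P) : Set (FreeGroup P) :=
  {r | ∃ (l : L) (i j : ℤ), r = FreeGroup.of (pt l i) * FreeGroup.of (pt l (i + 1)) *
    (FreeGroup.of (pt l j) * FreeGroup.of (pt l (j + 1)))⁻¹}

/-- The group of the points and lines. -/
abbrev KG {P L : Type} (pt : L → ℤ → P) : Type := PresentedGroup (lrels pt)

/-- The generators. -/
def tt {P L : Type} (pt : L → ℤ → P) (x : P) : KG pt := PresentedGroup.of x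

/-- The normal closure of the squares. -/
def RR {P L : Type} (pt : L → ℤ → P) : Subgroup (KG pt) :=
  Subgroup.normalClosure (Set.range fun x => tt pt x ^ 2)

/-- The graph: the Cayley graph of the group with the relations `x ^ 2 = 1` added, with length
function. `x` is a down direction of `v` if `len (act v x) < len v`. The down directions of
`v ≠ o` are one point, or the points of one line; in the second case `v = w z ^ k`, with the gate
`w` two levels below. -/
structure Om {P : Type} (Γ : Geo P) where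
  V : Type
  o : V
  act : V → P → V
  len : V → ℕ
  len_o : len o = 0
  zero : ∀ v, len v = 0 → v = o
  invol : ∀ v x, act (act v x) x = v
  step : ∀ v x, len (act v x) = len v + 1 ∨ len v = len (act v x) + 1
  down : ∀ v, v ≠ o → (∃ x, ∀ y, len (act v y) < len v ↔ y = x) ∨
    ∃ (l : Γ.L) (w : V) (k : ℤ), k ≠ 0 ∧ len v = len w + 2 ∧
      (∀ y, len (act v y) < len v ↔ ∃ i, y = Γ.pt l i) ∧
      (∀ i, len w < len (act w (Γ.pt l i))) ∧ ∀ i, act v (Γ.pt l (i + k)) = act w (Γ.pt l i)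
  gate : ∀ w l, (∀ i, len w < len (act w (Γ.pt l i))) → ∀ k : ℤ, k ≠ 0 →
    ∃ v, len v = len w + 2 ∧ (∀ y, len (act v y) < len v ↔ ∃ i, y = Γ.pt l i) ∧
      ∀ i, act v (Γ.pt l (i + k)) = act w (Γ.pt l i)

/-- Module V1. The graph exists. -/
def StV1 : Prop := ∀ (P : Type) (Γ : Geo P), Nonempty (Om Γ)

/-- Cocycles on the graph with values `f v` on the vertices with a unique down direction; the
third condition fixes the values on `w z ^ k`. -/
structure Coc {P : Type} {Γ : Geo P} (Ω : Om Γ) {G : Type} [Group G] (f : Ω.V → G)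
    (φ : Ω.V → P → G) : Prop where
  rel : ∀ (v : Ω.V) (l : Γ.L) (i j : ℤ),
    φ v (Γ.pt l i) * φ (Ω.act v (Γ.pt l i)) (Γ.pt l (i + 1)) =
      φ v (Γ.pt l j) * φ (Ω.act v (Γ.pt l j)) (Γ.pt l (j + 1))
  one : ∀ (v : Ω.V) (x : P), (∀ y, Ω.len (Ω.act v y) < Ω.len v ↔ y = x) →
    φ (Ω.act v x) x = 1 ∧ φ v x = f v
  gau : ∀ (w : Ω.V) (l : Γ.L), (∀ i, Ω.len w < Ω.len (Ω.act w (Γ.pt l i))) → ∀ (v : Ω.V) (k : ℤ),
    (∀ i, Ω.act v (Γ.pt l (i + k)) = Ω.act w (Γ.pt l i)) →
    ∀ q, φ v (Γ.pt l (q + k)) * φ (Ω.act w (Γ.pt l q)) (Γ.pt l (q + k + 1)) = 1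

/-- Module V2. Cocycles exist and are unique. -/
def StV2 : Prop :=
  ∀ (P : Type) (Γ : Geo P) (Ω : Om Γ) (G : Type) [Group G] (f : Ω.V → G),
    (∃ φ : Ω.V → P → G, Coc Ω f φ) ∧
    ∀ φ ψ : Ω.V → P → G, Coc Ω f φ → Coc Ω f ψ → φ = ψ

/-- The conclusions of the abstract theorem. -/
structure Abs {P L : Type} (pt : L → ℤ → P) : Prop where
  inj : ∀ x y, tt pt x * tt pt y ∈ RR pt → x = y
  free : ∃ (W : Type) (F : RR pt →* FreeGroup W), Function.Injective F
  coord : ∀ x : P, ∃ F : RR pt →* Multiplicative ℤ, ∀ (y : P) (h : tt pt y ^ 2 ∈ RR pt),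
    (y = x → F ⟨tt pt y ^ 2, h⟩ = ofAdd 1) ∧ (y ≠ x → F ⟨tt pt y ^ 2, h⟩ = 1)

/-- Module V3. The abstract theorem with unique labels. -/
def StV3 : Prop := ∀ (P : Type) (Γ : Geo P), Abs Γ.pt

/-- Module V3'. The abstract theorem. -/
def StV3' : Prop := ∀ (P L : Type) (pt : L → ℤ → P), IsGeo pt → Abs pt

/-! ## Even Artin groups with half labels `1` and `2` -/

/-- All half labels are `1` or `2`. -/
def Lab {S : Type} (l : S → S → ℕ) : Prop :=
  (∀ s t, l s t = l t s) ∧ ∀ s t, s ≠ t → l s t = 1 ∨ l s t = 2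

/-- The points: cosets of the standard subgroup of the generators commuting with `u`. -/
abbrev PP {S : Type} (l : S → S → ℕ) (u : S) : Type :=
  EA (del l u) ⧸ par (del l u) {c | l u c = 1}

/-- The labels of the lines. -/
abbrev LL {S : Type} (l : S → S → ℕ) (u : S) : Type :=
  EA (del l u) × {y : {x : S // x ≠ u} // l u y = 2}

/-- The line of `(g, y)`: the cosets of `g y ^ n`. -/
def ppt {S : Type} (l : S → S → ℕ) (u : S) : LL l u → ℤ → PP l u :=
  fun p n => QuotientGroup.mk (p.1 * gen (del l u) p.2 ^ n)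

/-- Module V4. The kernel of the retraction killing `u` is the group of the points and lines. -/
def StV4 : Prop :=
  ∀ (S : Type) (l : S → S → ℕ), Lab l → ∀ u : S,
    ∃ (ρ : EA l →* EA (del l u)) (i : EA (del l u) →* EA l),
      (∀ s, i (gen (del l u) s) = gen l s) ∧ (∀ a, ρ (i a) = a) ∧ ρ (gen l u) = 1 ∧
      ∃ e : ρ.ker ≃* KG (ppt l u), ∀ (a : EA (del l u)) (h : i a * gen l u * (i a)⁻¹ ∈ ρ.ker),
        e ⟨i a * gen l u * (i a)⁻¹, h⟩ = tt (ppt l u) (QuotientGroup.mk a)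

/-- Conjugates of powers of `u` by elements of the standard subgroup of `T`. -/
structure CC {S : Type} (l : S → S → ℕ) (T : Set S) (u : S) : Prop where
  two : ∀ a ∈ par l T, ∀ m : ℤ, m ≠ 0 → a * gen l u ^ m * a⁻¹ = gen l u ^ m →
    a ∈ par l {c | c ∈ T ∧ l u c = 1}
  three : ∀ a ∈ par l T, ∀ b ∈ par l T, ∀ k₁ k₂ k₃ : ℤ, k₁ ≠ 0 → k₂ ≠ 0 → k₃ ≠ 0 →
    gen l u ^ k₁ * (a * gen l u ^ k₂ * a⁻¹) * (b * gen l u ^ k₃ * b⁻¹) = 1 →
    a ∈ par l {c | c ∈ T ∧ l u c = 1} ∨ b ∈ par l {c | c ∈ T ∧ l u c = 1} ∨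
      a⁻¹ * b ∈ par l {c | c ∈ T ∧ l u c = 1}

/-- Module V5. The points and lines of an even Artin group. -/
def StV5 : Prop :=
  ∀ (S : Type) (l : S → S → ℕ), Lab l → ∀ u : S,
    (∀ y : {x : S // x ≠ u}, l u y = 2 → CC (del l u) {c | l u c = 1} y) → IsGeo (ppt l u)

/-- Module V6. The induction: conjugates, and the normal closure of a square embeds in a free
group. -/
def StV6 : Prop :=
  ∀ (S : Type) [Finite S] (l : S → S → ℕ), Lab l →
    (∀ (T : Set S) (u : S), u ∉ T → CC l T u) ∧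
    ∀ u : S, ∃ (W : Type) (F : Subgroup.normalClosure {gen l u ^ 2} →* FreeGroup W),
      Function.Injective F

/-- The half labels after the relation `u ^ 2 = 1`: the generators different from `u`, and a second
copy of those with half label `2` with `u`. -/
noncomputable def hat {S : Type} (l : S → S → ℕ) (u : S) :
    {x : S // x ≠ u} ⊕ {x : S // x ≠ u ∧ l u x = 2} →
      {x : S // x ≠ u} ⊕ {x : S // x ≠ u ∧ l u x = 2} → ℕ := by
  classical
  exact fun a b => match a, b with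
    | .inl s, .inl t => l s t
    | .inr s, .inr t => l s t
    | .inl s, .inr t => if l u s = 2 then (if (s : S) = t then 1 else 0) else l s t
    | .inr s, .inl t => if l u t = 2 then (if (s : S) = t then 1 else 0) else l s t

/-- Module V7. The quotient by the square of `u`. -/
def StV7 : Prop :=
  ∀ (S : Type) (l : S → S → ℕ), Lab l → ∀ u : S,
    ∃ (Q : Type) (_ : Group Q) (Λ : EA l →* Q) (χ : Q →* Multiplicative (ZMod 2))
      (η : χ.ker →* EA (hat l u)),
      Function.Injective η ∧ Λ.ker ≤ Subgroup.normalClosure {gen l u ^ 2}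

/-- Module V8a. Extensions by groups which embed in free groups. -/
def StV8a : Prop :=
  ∀ (G Q : Type) [Group G] [Group Q] (f : G →* Q),
    (∃ (W : Type) (F : f.ker →* FreeGroup W), Function.Injective F) → STA Q → STA G

/-- Module V8b. Reduction of even Artin groups to half labels `1` and `2` for a class of groups. -/
def StV8b : Prop :=
  ∀ (Pr : (G : Type) → [Group G] → Prop), Cls Pr → ∀ (S : Type) [Finite S] (l : S → S → ℕ),
    (∀ s t, l s t = l t s) →
    (∀ X : Set S, Lab (fun s t : X => l s t) → Pr (EA (fun s t : X => l s t))) → Pr (EA l)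

/-- Module V8. Even Artin groups with half labels `1` and `2`. -/
def StV8 : Prop :=
  ∀ (S : Type) [Finite S] (l : S → S → ℕ), Lab l → STA (EA l)

/-- Module V9. All even Artin groups. -/
def StV9 : Prop :=
  (∀ (S : Type) [Finite S] (l : S → S → ℕ), (∀ s t, l s t = l t s) → STA (EA l)) ∧
  (∀ (S : Type) [Finite S] (M : CoxeterMatrix S), (∀ s t, s ≠ t → Even (M s t)) →
    STA (ArtinGroup M))

end Pool.Agent.Lib.MP_e6f638_al
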