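import Pool.Agent.Lib.MP_e6f638_al.V.Stmts77

/-!
# Module V1: the graph

Vertices are terms: `o`, `s u x` (one down direction `x`), `f w l k` (`w z ^ k`, down directions the
points of `l`).
-/

set_option autoImplicit false

namespace Pool.Agent.Lib.MP_e6f638_al

namespace V1

variable {P : Type} (Γ : Geo P)

/-- The terms. -/
inductive VV : Type
  | o : VV
  | s (u : VV) (x : P) : VV
  | f (w : VV) (l : Γ.L) (k : ℤ) : VV

variable {Γ}

/-- The down directions. -/
def D : VV Γ → Set P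
  | .o => ∅
  | .s _ x => {x}
  | .f _ l _ => Set.range (Γ.pt l)

/-- The valid terms. -/
def Valid : VV Γ → Prop
  | .o => True
  | .s u x => Valid u ∧ x ∉ D u ∧ ∀ (m : Γ.L) (a b : ℤ), Γ.pt m a ∈ D u → x ≠ Γ.pt m b
  | .f w l k => Valid w ∧ k ≠ 0 ∧ ∀ i, Γ.pt l i ∉ D w

/-- The level. -/
def len : VV Γ → ℕ
  | .o => 0
  | .s u _ => len u + 1
  | .f w _ _ => len w + 2

open Classical in
/-- The action of the points. -/
noncomputable def act : VV Γ → P → VV Γ
  | .o, x => .s .o x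
  | .s u p, x =>
    if x = p then u
    else if h : ∃ t : Γ.L × ℤ × ℤ, p = Γ.pt t.1 t.2.1 ∧ x = Γ.pt t.1 t.2.2 then
      .f u h.choose.1 (h.choose.2.2 - h.choose.2.1)
    else .s (.s u p) x
  | .f w l k, x =>
    if h : ∃ i, x = Γ.pt l i then act w (Γ.pt l (h.choose - k))
    else if h : ∃ t : ℤ × Γ.L × ℤ × ℤ, Γ.pt l t.1 = Γ.pt t.2.1 t.2.2.1 ∧
        x = Γ.pt t.2.1 t.2.2.2 then
      .f (act w (Γ.pt l (h.choose.1 - k))) h.choose.2.1 (h.choose.2.2.2 - h.choose.2.2.1)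
    else .s (.f w l k) x

theorem act_o (x : P) : act (.o : VV Γ) x = .s .o x := by
  rw [act]

theorem act_s_self (u : VV Γ) (p : P) : act (.s u p) p = u := by
  rw [act, if_pos rfl]

theorem act_s_col (u : VV Γ) (m : Γ.L) {a b : ℤ} (hab : a ≠ b) :
    act (.s u (Γ.pt m a)) (Γ.pt m b) = .f u m (b - a) := by
  have h : ∃ t : Γ.L × ℤ × ℤ, Γ.pt m a = Γ.pt t.1 t.2.1 ∧ Γ.pt m b = Γ.pt t.1 t.2.2 :=
    ⟨(m, a, b), rfl, rfl⟩
  rw [act, if_neg (fun h => hab (Γ.inj m h).symm), dif_pos h]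
  obtain ⟨h1, h2⟩ := h.choose_spec
  have h3 : m = h.choose.1 := Γ.dig _ _ _ _ _ _ hab h1 h2
  have h4 : a = h.choose.2.1 := by
    rw [← h3] at h1
    exact Γ.inj m h1
  have h5 : b = h.choose.2.2 := by
    rw [← h3] at h2
    exact Γ.inj m h2
  rw [← h3, ← h4, ← h5]

theorem act_s_far (u : VV Γ) {p x : P} (hx : x ≠ p)
    (h : ∀ (m : Γ.L) (a b : ℤ), p = Γ.pt m a → x ≠ Γ.pt m b) :
    act (.s u p) x = .s (.s u p) x := by
  rw [act, if_neg hx, dif_neg]
  rintro ⟨t, h1, h2⟩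
  exact h _ _ _ h1 h2

theorem act_f_mem (w : VV Γ) (l : Γ.L) (k i : ℤ) :
    act (.f w l k) (Γ.pt l i) = act w (Γ.pt l (i - k)) := by
  have h : ∃ j, Γ.pt l i = Γ.pt l j := ⟨i, rfl⟩
  rw [act, dif_pos h]
  have h2 : i = h.choose := Γ.inj l h.choose_spec
  rw [← h2]

theorem act_f_col (w : VV Γ) (l m : Γ.L) (k i a b : ℤ) (hx : Γ.pt m b ∉ Set.range (Γ.pt l))
    (hi : Γ.pt l i = Γ.pt m a) :
    act (.f w l k) (Γ.pt m b) = .f (act w (Γ.pt l (i - k))) m (b - a) := by
  have h0 : ¬ ∃ i, Γ.pt m b = Γ.pt l i := fun ⟨i, h⟩ => hx ⟨i, h.symm⟩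
  have h : ∃ t : ℤ × Γ.L × ℤ × ℤ, Γ.pt l t.1 = Γ.pt t.2.1 t.2.2.1 ∧
        Γ.pt m b = Γ.pt t.2.1 t.2.2.2 := ⟨(i, m, a, b), hi, rfl⟩
  rw [act, dif_neg h0, dif_pos h]
  obtain ⟨h1, h2⟩ := h.choose_spec
  have hab : a ≠ b := by
    rintro rfl
    exact hx ⟨i, hi⟩
  -- the same point of `l`
  have h3 : h.choose.1 = i := by
    by_contra h3
    have h4 : h.choose.2.2.2 ≠ h.choose.2.2.1 := by
      intro h4
      rw [h4] at h2
      exact hx ⟨_, h1.trans h2.symm⟩
    have h5 : m = l := by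
      have := Γ.tri m l h.choose.2.1 b a i h.choose.1 h.choose.2.2.1 h.choose.2.2.2 hab.symm
        (Ne.symm h3) h4.symm hi.symm h1 h2.symm
      exact this
    exact hx ⟨b, by rw [h5]⟩
  have h6 : m = h.choose.2.1 := by
    refine Γ.dig _ _ a b h.choose.2.2.1 h.choose.2.2.2 hab ?_ h2
    rw [← hi, ← h1, h3]
  have h7 : a = h.choose.2.2.1 := by
    apply Γ.inj m
    rw [← hi, ← h3, h1, ← h6]
  have h8 : b = h.choose.2.2.2 := by
    rw [← h6] at h2
    exact Γ.inj m h2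
  rw [h3, ← h6, ← h7, ← h8]

theorem act_f_far (w : VV Γ) (l : Γ.L) (k : ℤ) {x : P} (hx : x ∉ Set.range (Γ.pt l))
    (h : ∀ (m : Γ.L) (a b : ℤ), Γ.pt m a ∈ Set.range (Γ.pt l) → x ≠ Γ.pt m b) :
    act (.f w l k) x = .s (.f w l k) x := by
  rw [act, dif_neg fun ⟨i, h⟩ => hx ⟨i, h.symm⟩, dif_neg]
  rintro ⟨t, h1, h2⟩
  exact h _ _ _ ⟨_, h1⟩ h2

/-- A step up without collinear down directions. -/
theorem act_far (v : VV Γ) {x : P} (hx : x ∉ D v)
    (h : ∀ (m : Γ.L) (a b : ℤ), Γ.pt m a ∈ D v → x ≠ Γ.pt m b) : act v x = .s v x := by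
  cases v with
  | o => exact act_o x
  | s u p => exact act_s_far u hx fun m a b hp => h m a b hp.symm
  | f w l k => exact act_f_far w l k hx h

/-- A step up with a collinear down direction. -/
theorem act_col (v : VV Γ) (m : Γ.L) {a b : ℤ} (hx : Γ.pt m b ∉ D v) (h : Γ.pt m a ∈ D v) :
    act v (Γ.pt m b) = .f (act v (Γ.pt m a)) m (b - a) := by
  cases v with
  | o => exact absurd h (Set.notMem_empty _)
  | s u p =>
    have h1 : Γ.pt m a = p := h
    have hab : a ≠ b := by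
      rintro rfl
      exact hx h
    rw [← h1, act_s_self, act_s_col u m hab]
  | f w l k =>
    obtain ⟨i, hi⟩ := h
    rw [act_f_col w l m k i a b hx hi, ← hi, act_f_mem]

/-- The two kinds of steps up. -/
theorem act_cases (v : VV Γ) {x : P} (hx : x ∉ D v) :
    ((∀ (m : Γ.L) (a b : ℤ), Γ.pt m a ∈ D v → x ≠ Γ.pt m b) ∧ act v x = .s v x) ∨
    ∃ (m : Γ.L) (a b : ℤ), a ≠ b ∧ Γ.pt m a ∈ D v ∧ x = Γ.pt m b ∧
      act v x = .f (act v (Γ.pt m a)) m (b - a) := by
  by_cases h : ∀ (m : Γ.L) (a b : ℤ), Γ.pt m a ∈ D v → x ≠ Γ.pt m b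
  · exact Or.inl ⟨h, act_far v hx h⟩
  · push Not at h
    obtain ⟨m, a, b, h1, rfl⟩ := h
    refine Or.inr ⟨m, a, b, ?_, h1, rfl, act_col v m hx h1⟩
    rintro rfl
    exact hx h1

/-- The down directions after a step up: only one point of a line without down directions. -/
theorem mem_D_act {w : VV Γ} {l : Γ.L} (hl : ∀ i, Γ.pt l i ∉ D w) (i j : ℤ) :
    Γ.pt l j ∈ D (act w (Γ.pt l i)) ↔ j = i := by
  rcases act_cases w (hl i) with ⟨h1, h2⟩ | ⟨m, a, b, hab, h1, h2, h3⟩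
  · rw [h2]
    constructor
    · intro h
      exact Γ.inj l h
    · rintro rfl
      exact rfl
  · rw [h3]
    constructor
    · rintro ⟨c, hc⟩
      by_contra hij
      have h4 : l = m := Γ.dig l m i j b c (Ne.symm hij) h2 hc.symm
      subst h4
      exact hl _ h1
    · rintro rfl
      exact ⟨b, h2.symm⟩

/-- The gate lemma. -/
theorem gate {w : VV Γ} (hinv : ∀ x, act (act w x) x = w) {l : Γ.L}
    (hl : ∀ i, Γ.pt l i ∉ D w) {i j : ℤ} (hij : i ≠ j) :
    act (act w (Γ.pt l i)) (Γ.pt l j) = .f w l (j - i) := by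
  rcases act_cases w (hl i) with ⟨h1, h2⟩ | ⟨m, a, b, hab, h1, h2, h3⟩
  · rw [h2, act_s_col w l hij]
  · have hlm : l ≠ m := by
      rintro rfl
      exact hl _ h1
    rw [h3, act_f_col _ _ _ _ b i j ?_ h2.symm]
    · rw [show b - (b - a) = a by ring, hinv]
    · rintro ⟨c, hc⟩
      exact hlm (Γ.dig l m i j b c hij h2 hc.symm)

/-- The main properties of the action. -/
theorem main (v : VV Γ) : Valid v → ∀ x, Valid (act v x) ∧ act (act v x) x = v ∧
    ((x ∈ D v ∧ x ∉ D (act v x) ∧ len v = len (act v x) + 1) ∨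
      (x ∉ D v ∧ x ∈ D (act v x) ∧ len (act v x) = len v + 1)) := by
  induction v with
  | o =>
    intro _ x
    rw [act_o]
    refine ⟨⟨trivial, Set.notMem_empty _, fun m a b h => absurd h (Set.notMem_empty _)⟩,
      act_s_self _ _, Or.inr ⟨Set.notMem_empty _, rfl, rfl⟩⟩
  | s u p ih =>
    rintro ⟨hu, hp, hcol⟩ x
    have hup : act u p = .s u p := act_far u hp hcol
    by_cases hx : x = p
    · subst hx
      rw [act_s_self]
      exact ⟨hu, hup, Or.inl ⟨rfl, hp, rfl⟩⟩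
    · have hx' : x ∉ D (.s u p : VV Γ) := hx
      rcases act_cases (.s u p) hx' with ⟨h1, h2⟩ | ⟨m, a, b, hab, h1, h2, h3⟩
      · rw [h2]
        exact ⟨⟨⟨hu, hp, hcol⟩, hx', h1⟩, act_s_self _ _, Or.inr ⟨hx', rfl, rfl⟩⟩
      · have h4 : Γ.pt m a = p := h1
        rw [h3, h4, act_s_self]
        subst h4
        subst h2
        have hm : ∀ i, Γ.pt m i ∉ D u := fun i hi => hcol m i a hi rfl
        refine ⟨⟨hu, sub_ne_zero.2 hab.symm, hm⟩, ?_, Or.inr ⟨hx', ⟨b, rfl⟩, rfl⟩⟩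
        rw [act_f_mem, show b - (b - a) = a by ring, hup]
  | f w l k ih =>
    rintro ⟨hw, hk, hl⟩ x
    have ihw := ih hw
    have hinv : ∀ x, act (act w x) x = w := fun x => (ihw x).2.1
    by_cases hx : x ∈ D (.f w l k : VV Γ)
    · obtain ⟨i, rfl⟩ := hx
      have hi : i - k ≠ i := by omega
      obtain ⟨h1, h2, h3⟩ := ihw (Γ.pt l (i - k))
      rw [act_f_mem]
      refine ⟨h1, ?_, Or.inl ⟨⟨i, rfl⟩, ?_, ?_⟩⟩
      · rw [gate hinv hl hi, show i - (i - k) = k by ring]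
      · rw [mem_D_act hl]
        exact hi.symm
      · rcases h3 with ⟨h4, _⟩ | ⟨_, _, h4⟩
        · exact absurd h4 (hl _)
        · change len w + 2 = _
          omega
    · rcases act_cases (.f w l k) hx with ⟨h1, h2⟩ | ⟨m, a, b, hab, ⟨i, hi⟩, h2, h3⟩
      · rw [h2]
        exact ⟨⟨⟨hw, hk, hl⟩, hx, h1⟩, act_s_self _ _, Or.inr ⟨hx, rfl, rfl⟩⟩
      · rw [← hi, act_f_mem] at h3
        subst h2
        have hik : i - k ≠ i := by omega
        obtain ⟨h4, h5, h6⟩ := ihw (Γ.pt l (i - k))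
        have hlm : l ≠ m := by
          rintro rfl
          exact hx ⟨b, rfl⟩
        have hq : Γ.pt l i ∉ D (act w (Γ.pt l (i - k))) := by
          rw [mem_D_act hl]
          exact hik.symm
        have hm : ∀ e, Γ.pt m e ∉ D (act w (Γ.pt l (i - k))) := by
          intro e he
          have hea : e ≠ a := by
            rintro rfl
            rw [← hi] at he
            exact hq he
          -- `pt m e` is not on `l`
          have hel : ∀ c, Γ.pt m e ≠ Γ.pt l c := by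
            intro c hc
            have hci : c ≠ i := by
              rintro rfl
              rw [hi] at hc
              exact hea (Γ.inj m hc)
            exact hlm (Γ.dig l m c i e a hci hc.symm hi)
          rcases act_cases w (hl (i - k)) with ⟨h7, h8⟩ | ⟨m', a', b', hab', h7, h8, h9⟩
          · rw [h8] at he
            exact hel _ he
          · rw [h9] at he
            obtain ⟨c, hc⟩ := he
            -- the triangle
            have hcb : c ≠ b' := by
              rintro rfl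
              exact hel _ (hc.symm.trans h8.symm)
            exact hlm (Γ.tri l m m' (i - k) i a e c b' hik hea.symm hcb hi hc.symm h8.symm)
        rw [h3]
        refine ⟨⟨h4, sub_ne_zero.2 hab.symm, hm⟩, ?_, Or.inr ⟨hx, ⟨b, rfl⟩, ?_⟩⟩
        · rw [act_f_mem, show b - (b - a) = a by ring, ← hi, gate hinv hl hik,
            show i - (i - k) = k by ring]
        · rcases h6 with ⟨h7, _⟩ | ⟨_, _, h7⟩
          · exact absurd h7 (hl _)
          · change len (act w (Γ.pt l (i - k))) + 2 = len w + 2 + 1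
            omega

theorem lt_iff {v : VV Γ} (hv : Valid v) (x : P) : len (act v x) < len v ↔ x ∈ D v := by
  rcases (main v hv x).2.2 with ⟨h1, h2, h3⟩ | ⟨h1, h2, h3⟩
  · exact ⟨fun _ => h1, fun _ => by omega⟩
  · exact ⟨fun h => by omega, fun h => absurd h h1⟩

theorem gt_iff {v : VV Γ} (hv : Valid v) (x : P) : len v < len (act v x) ↔ x ∉ D v := by
  rcases (main v hv x).2.2 with ⟨h1, h2, h3⟩ | ⟨h1, h2, h3⟩
  · exact ⟨fun h => by omega, fun h => absurd h1 h⟩
  · exact ⟨fun _ => h1, fun _ => by omega⟩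

/-- The graph. -/
noncomputable def om (Γ : Geo P) : Om Γ where
  V := {v : VV Γ // Valid v}
  o := ⟨.o, trivial⟩
  act := fun v x => ⟨act v.1 x, (main v.1 v.2 x).1⟩
  len := fun v => len v.1
  len_o := rfl
  zero := by
    rintro ⟨v, hv⟩ h
    cases v with
    | o => rfl
    | s u x => exact absurd h (Nat.succ_ne_zero _)
    | f w l k => exact absurd h (Nat.succ_ne_zero _)
  invol := fun v x => Subtype.ext (main v.1 v.2 x).2.1
  step := by
    intro v x
    rcases (main v.1 v.2 x).2.2 with ⟨h1, h2, h3⟩ | ⟨h1, h2, h3⟩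
    · exact Or.inr h3
    · exact Or.inl h3
  down := by
    rintro ⟨v, hv⟩ h
    cases v with
    | o => exact absurd rfl h
    | s u x => exact Or.inl ⟨x, fun y => lt_iff hv y⟩
    | f w l k =>
      refine Or.inr ⟨l, ⟨w, hv.1⟩, k, hv.2.1, rfl, fun y => ?_, fun i => ?_, fun i => ?_⟩
      · rw [lt_iff hv y]
        constructor
        · rintro ⟨i, hi⟩
          exact ⟨i, hi.symm⟩
        · rintro ⟨i, hi⟩
          exact ⟨i, hi.symm⟩
      · exact (gt_iff hv.1 _).2 (hv.2.2 i)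
      · refine Subtype.ext ?_
        change act (.f w l k) (Γ.pt l (i + k)) = act w (Γ.pt l i)
        rw [act_f_mem, show i + k - k = i by ring]
  gate := by
    rintro ⟨w, hw⟩ l h k hk
    have hl : ∀ i, Γ.pt l i ∉ D w := fun i => (gt_iff hw _).1 (h i)
    refine ⟨⟨.f w l k, hw, hk, hl⟩, rfl, fun y => ?_, fun i => ?_⟩
    · rw [lt_iff (v := .f w l k) ⟨hw, hk, hl⟩ y]
      constructor
      · rintro ⟨i, hi⟩
        exact ⟨i, hi.symm⟩
      · rintro ⟨i, hi⟩
        exact ⟨i, hi.symm⟩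
    · refine Subtype.ext ?_
      change act (.f w l k) (Γ.pt l (i + k)) = act w (Γ.pt l i)
      rw [act_f_mem, show i + k - k = i by ring]

end V1

/-- The graph exists. -/
theorem stV1 : StV1 := fun _ Γ => ⟨V1.om Γ⟩

end Pool.Agent.Lib.MP_e6f638_al
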