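import Pool.Agent.Lib.MP_e6f638_al.V.Stmts77
import Pool.Agent.Lib.MP_e6f638_al.I1

/-!
# Module V6, transfer: from the standard subgroup of `T ∪ {u}` to the whole group
-/

set_option autoImplicit false

namespace Pool.Agent.Lib.MP_e6f638_al

open Multiplicative

section

variable {S : Type} (l : S → S → ℕ)

theorem incl_mem_par38 {X Y : Set S} (hY : Y ⊆ X) (a : EA (fun a b : X => l a b)) :
    incl l X a ∈ par l Y ↔ a ∈ par (fun a b : X => l a b) {x | (x : S) ∈ Y} := by
  rw [incl_par l Y hY]
  constructor
  · rintro ⟨b, hb, hab⟩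
    rwa [← incl_injective l X hab]
  · exact fun h => ⟨a, h, rfl⟩

/-- The transfer for an arbitrary set `X` containing `T` and `u`. -/
theorem cc_transfer_set (T X : Set S) (hT : T ⊆ X) (u : X)
    (h : CC (fun a b : X => l a b) {x | (x : S) ∈ T} u) : CC l T u := by
  have hsub : {c | c ∈ T ∧ l u c = 1} ⊆ X := fun c hc => hT hc.1
  have hgen : ∀ m : ℤ, incl l X (gen (fun a b : X => l a b) u ^ m) = gen l (u : S) ^ m := by
    intro m
    rw [map_zpow, incl_gen]
  have hlift : ∀ a ∈ par l T, ∃ a' ∈ par (fun a b : X => l a b) {x | (x : S) ∈ T},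
      incl l X a' = a := by
    intro a ha
    rw [incl_par l T hT] at ha
    exact ha
  constructor
  · intro a ha m hm hc
    obtain ⟨a', ha', rfl⟩ := hlift a ha
    refine (incl_mem_par38 l hsub a').2 (h.two a' ha' m hm (incl_injective l X ?_))
    rw [map_mul, map_mul, map_inv, hgen, hc]
  · intro a ha b hb k₁ k₂ k₃ h1 h2 h3 hc
    obtain ⟨a', ha', rfl⟩ := hlift a ha
    obtain ⟨b', hb', rfl⟩ := hlift b hb
    have key := h.three a' ha' b' hb' k₁ k₂ k₃ h1 h2 h3 (incl_injective l X (by
      rw [map_mul, map_mul, map_mul, map_mul, map_mul, map_mul, map_inv, map_inv, hgen, hgen,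
        hgen, hc, map_one]))
    rcases key with key | key | key
    · exact Or.inl ((incl_mem_par38 l hsub a').2 key)
    · exact Or.inr (Or.inl ((incl_mem_par38 l hsub b').2 key))
    · refine Or.inr (Or.inr ?_)
      rw [← map_inv, ← map_mul]
      exact (incl_mem_par38 l hsub _).2 key

/-- The transfer from `T ∪ {u}`. -/
theorem cc_transfer (T : Set S) (u : S)
    (h : CC (fun a b : (insert u T : Set S) => l a b) {x | (x : S) ∈ T}
      ⟨u, Set.mem_insert u T⟩) : CC l T u :=
  cc_transfer_set l T (insert u T) (Set.subset_insert u T) ⟨u, Set.mem_insert u T⟩ h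

/-- The same with the complement of `u`. -/
theorem cc_transfer' (T : Set S) (u : S) (hu : u ∉ T)
    (h : CC (fun a b : (insert u T : Set S) => l a b) {⟨u, Set.mem_insert u T⟩}ᶜ
      ⟨u, Set.mem_insert u T⟩) : CC l T u := by
  refine cc_transfer l T u ?_
  have e : {x : (insert u T : Set S) | (x : S) ∈ T} = {⟨u, Set.mem_insert u T⟩}ᶜ := by
    ext ⟨x, hx⟩
    simp only [Set.mem_setOf_eq, Set.mem_compl_iff, Set.mem_singleton_iff, Subtype.mk.injEq]
    rcases hx with hx | hx
    · subst hx
      simp [hu]
    · exact ⟨fun _ e => hu (e ▸ hx), fun _ => hx⟩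
  rw [e]
  exact h

/-- The induction: `CC` for all sets follows from `CC` for complements of one generator, for all
smaller sets of generators. -/
theorem cc_all_of_compl
    (H : ∀ (S : Type) [Finite S] (l : S → S → ℕ), Lab l →
      (∀ (S' : Type) [Finite S'] (l' : S' → S' → ℕ), Nat.card S' < Nat.card S → Lab l' →
        ∀ (T : Set S') (u : S'), u ∉ T → CC l' T u) →
      ∀ u : S, CC l {u}ᶜ u) :
    ∀ (S : Type) [Finite S] (l : S → S → ℕ), Lab l → ∀ (T : Set S) (u : S), u ∉ T → CC l T u := by
  have key : ∀ n, ∀ (S : Type) [Finite S] (l : S → S → ℕ), Nat.card S = n → Lab l →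
      ∀ (T : Set S) (u : S), u ∉ T → CC l T u := by
    intro n
    induction n using Nat.strong_induction_on with
    | _ n ih =>
      intro S _ l hn hl T u hu
      have hsmall : ∀ (S' : Type) [Finite S'] (l' : S' → S' → ℕ), Nat.card S' < Nat.card S →
          Lab l' → ∀ (T : Set S') (u : S'), u ∉ T → CC l' T u := by
        intro S' _ l' hS' hl' T' u' hu'
        exact ih _ (hn ▸ hS') S' l' rfl hl' T' u' hu'
      by_cases hX : (insert u T : Set S) = Set.univ
      · have hT : T = {u}ᶜ := by
          ext x
          have hx : x ∈ (insert u T : Set S) := by rw [hX]; trivial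
          simp only [Set.mem_compl_iff, Set.mem_singleton_iff]
          rcases hx with hx | hx
          · subst hx
            simp [hu]
          · exact ⟨fun _ e => hu (e ▸ hx), fun _ => hx⟩
        rw [hT]
        exact H S l hl hsmall u
      · refine cc_transfer' l T u hu ?_
        refine hsmall _ _ ?_ ?_ _ _ (by simp)
        · have h1 : (insert u T : Set S).ncard < (Set.univ : Set S).ncard :=
            Set.ncard_lt_ncard (Set.ssubset_univ_iff.2 hX) (Set.toFinite _)
          rwa [Set.ncard_univ] at h1
        · exact ⟨fun s t => hl.1 s t, fun s t hst => hl.2 s t fun e => hst (Subtype.ext e)⟩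
  exact fun S _ l hl T u hu => key _ S l rfl hl T u hu

end

end Pool.Agent.Lib.MP_e6f638_al
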