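import Pool.Agent.Lib.MP_e6f638_al.V.Stmts77
import Pool.Agent.Lib.MP_e6f638_al.J.Main

/-!
# All even Artin groups: the last step
-/

set_option autoImplicit false

namespace Pool.Agent.Lib.MP_e6f638_al

open Multiplicative Pool.Agent.Results.MP_e6f638_al.EvenArtin

theorem stV9 (hA : StA) (hC : StJC1) (h8b : StV8b) (h8 : StV8) : StV9 := by
  have h1 : ∀ (S : Type) [Finite S] (l : S → S → ℕ), (∀ s t, l s t = l t s) → STA (EA l) :=
    fun S _ l hl => h8b (fun G [Group G] => STA G) hC S l hl fun X hX => h8 X _ hX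
  refine ⟨h1, fun S _ M hM => ?_⟩
  obtain ⟨d, hd⟩ := h1 S (half M) (half_symm M)
  exact ⟨d, hA.1 _ _ (toEA M hM) _ (toEA_injective M hM) hd⟩

/-- The bounded Tits alternative with solvable subgroups implies the virtual one. -/
theorem vta_of_sta (G : Type) [Group G] (h : STA G) : VTA G := by
  obtain ⟨d, hd⟩ := h
  refine ⟨1, d, fun H hH => ⟨⊤, ?_, ?_, ?_⟩⟩
  · rw [Subgroup.index_top]
    exact one_ne_zero
  · rw [Subgroup.index_top]
  · have h1 := hd H hH
    have h2 := map_derivedSeries_le_derivedSeries (⊤ : Subgroup H).subtype d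
    rw [h1, le_bot_iff, Subgroup.map_eq_bot_iff_of_injective _ (Subgroup.subtype_injective _)] at h2
    exact h2

/-- The Artin group of a set of generators with even labels. -/
theorem sta_even (h : StV9) (S : Type) [Finite S] (M : CoxeterMatrix S) (X : Set S)
    (hX : ∀ s ∈ X, ∀ t ∈ X, s ≠ t → Even (M s t)) : STA (ArtinGroup (res M X)) :=
  h.2 X (res M X) fun s t hst => hX s s.2 t t.2 fun h' => hst (Subtype.ext h')

/-- The Artin group of a set of generators with even labels or at most two elements. -/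
theorem sta_base (h : StV9) (S : Type) [Finite S] (M : CoxeterMatrix S) (X : Set S)
    (hX : (∀ s ∈ X, ∀ t ∈ X, s ≠ t → Even (M s t)) ∨ ∃ a b, X ⊆ {a, b}) :
    STA (ArtinGroup (res M X)) := by
  rcases hX with h1 | ⟨a, b, h1⟩
  · exact sta_even h S M X h1
  by_cases h2 : ∀ s ∈ X, ∀ t ∈ X, s ≠ t → Even (M s t)
  · exact sta_even h S M X h2
  push Not at h2
  obtain ⟨s, hs, t, ht, hst, hodd⟩ := h2
  refine (stJD stJH).2 X (res M X) ⟨s, hs⟩ ⟨t, ht⟩ (fun h' => hst (congrArg Subtype.val h'))
    (fun x => ?_) (Nat.not_even_iff_odd.1 hodd)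
  have h3 : ∀ y : S, y ∈ X → y = s ∨ y = t := by
    intro y hy
    have e1 := h1 hs
    have e2 := h1 ht
    have e3 := h1 hy
    simp only [Set.mem_insert_iff, Set.mem_singleton_iff] at e1 e2 e3
    rcases e1 with e1 | e1 <;> rcases e2 with e2 | e2 <;> rcases e3 with e3 | e3 <;>
      first
      | (exact absurd (e1.trans e2.symm) hst)
      | (exact Or.inl (e3.trans e1.symm))
      | (exact Or.inr (e3.trans e2.symm))
  rcases h3 x x.2 with h4 | h4
  · exact Or.inl (Subtype.ext h4)
  · exact Or.inr (Subtype.ext h4)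

/-- If every irreducible tight clique is even or has at most two elements, subgroups without free
subgroups of rank two are solvable. -/
theorem sta_small (h : StV9) (S : Type) [Finite S] (M : CoxeterMatrix S)
    (hM : ∀ X : Set S, Clique M X → Tight M X → Irr M X →
      (∀ s ∈ X, ∀ t ∈ X, s ≠ t → Even (M s t)) ∨ ∃ a b, X ⊆ {a, b}) : STA (ArtinGroup M) :=
  stJI stVL stJH stJE stJJ_all stJP_all (fun G [Group G] => STA G) stJC1
    (fun G K _ _ => stJP_all.1 G K) S M fun X hX hX' hI => sta_base h S M X (hM X hX hX' hI)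

/-- If every irreducible tight clique is even or has at most two elements or the bounded Tits
alternative, the Artin group has the bounded Tits alternative. -/
theorem vta_mixed (h : StV9) (S : Type) [Finite S] (M : CoxeterMatrix S)
    (hM : ∀ X : Set S, Clique M X → Tight M X → Irr M X →
      (∀ s ∈ X, ∀ t ∈ X, s ≠ t → Even (M s t)) ∨ (∃ a b, X ⊆ {a, b}) ∨
        VTA (ArtinGroup (res M X))) :
    VTA (ArtinGroup M) :=
  stJI stVL stJH stJE stJJ_all stJP_all (fun G [Group G] => VTA G) stJC2
    (fun G K _ _ => vta_prod G K) S M fun X hX hX' hI => by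
      rcases hM X hX hX' hI with h1 | h1 | h1
      · exact vta_of_sta _ (sta_base h S M X (Or.inl h1))
      · exact vta_of_sta _ (sta_base h S M X (Or.inr h1))
      · exact h1

end Pool.Agent.Lib.MP_e6f638_al
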